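import Pool.Agent.Lib.MP_51bb46_lc.G.Defs

/-!
Decision tree gates (namespace `FrG`): decision trees and shallow formulas.
-/

namespace FrG

open Fr56

/-- decision trees over the variables in `V` -/
inductive Dtree (V : Type) : Type where
  | leaf (b : Bool) : Dtree V
  | node (v : V) (l r : Dtree V) : Dtree V

namespace Dtree

variable {V : Type}

/-- the value computed by a decision tree: at a node with the variable `v` the computation goes on
with `l` if `v` is false and with `r` if `v` is true -/
def eval (x : V → Bool) : Dtree V → Bool
  | leaf b => b
  | node v l r => if x v then eval x r else eval x l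

/-- depth: the largest number of variables that are read -/
def depth : Dtree V → ℕ
  | leaf _ => 0
  | node _ l r => max (depth l) (depth r) + 1

end Dtree

/-- every subformula of `f` computes a function of decision tree depth at most `κ` -/
def Shallow {V : Type} (κ : ℝ) (f : Fm V) : Prop :=
  ∀ g ∈ f.subs, ∃ A : Dtree V, (A.depth : ℝ) ≤ κ ∧ ∀ x, A.eval x = g.eval x

end FrG
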