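import Pool.Agent.Lib.MP_51bb46_lc.B.Defs

/-!
Local gates (namespace `FrG`): derivations from a set of axioms, the set of all subformulas.
-/

namespace FrG

open Fr56

/-- `π` is a derivation from the axioms `Ax` by the rules in `R`: each line is an axiom, or a
substitution instance of the conclusion of a rule whose correspondingly substituted hypotheses are
all earlier lines. -/
def Derives {V : Type} (R : List Rule) (Ax : Set (Fm V)) (π : List (Fm V)) : Prop :=
  ∀ i (hi : i < π.length), π[i] ∈ Ax ∨ ∃ r ∈ R, ∃ σ : ℕ → Fm V, π[i] = r.concl.subst σ ∧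
    ∀ A ∈ r.hyps, ∃ j, ∃ hj : j < i, π[j] = A.subst σ

/-- the set of all subformulas of the lines of a list -/
def subSet {X : Type} (π : List (Fm X)) : Set (Fm X) := {f | ∃ A ∈ π, f ∈ A.subs}

end FrG
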