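import Pool.Agent.Lib.MP_51bb46_lc.G.DtFix
import Pool.Agent.Lib.MP_51bb46_lc.S.StageP

/-!
Decision tree gates (namespace `FrG`): a random restriction after which the runs of all trees of a
family are hit by few coarse edges, for all coarse assignments.
-/

set_option linter.unusedSectionVars false

namespace FrG

open Finset Fr56 FrS
open scoped Classical

variable {D : ℕ}

/-- the coarse edges whose paths contain the fine edge `z` -/
noncomputable def hz (ρ : Rst D) (z : E D) : Finset (E D) :=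
  (edges D ρ.n).filter fun e => ρ.Pe e z ≠ 0

theorem card_hz (ρ : Rst D) (z : E D) : (hz ρ z).card ≤ 2 * (D + 3) := by
  refine (Finset.card_le_card ?_).trans (card_edges_near ρ.n ρ.T z)
  intro e he
  unfold hz at he
  rw [Finset.mem_filter] at he ⊢
  exact ⟨he.1, Rst.Pe_block ρ (u := e.1) (i := e.2) he.2⟩

/-- the restricted assignment at `z` depends only on the coarse edges through `z` -/
theorem x_congr_hz (ρ : Rst D) {z : E D} {y y' : Ch D} (h : ∀ e ∈ hz ρ z, y e = y' e) :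
    ρ.x y z = ρ.x y' z := by
  unfold Rst.x
  rw [Pi.add_apply, Pi.add_apply]
  congr 1
  unfold Rst.P
  refine Finset.sum_congr rfl fun e he => ?_
  by_cases h0 : ρ.Pe e z = 0
  · rw [h0, mul_zero, mul_zero]
  · rw [h e (by unfold hz; exact Finset.mem_filter.2 ⟨he, h0⟩)]

theorem RH_leaf (ρ : Rst D) (b : Bool) (y : Ch D) : RH ρ (.leaf b) y = ∅ := by
  unfold RH
  simp [DT.reads]

theorem RH_node (ρ : Rst D) (z : E D) (l r : DT (E D) Bool) (y : Ch D) :
    RH ρ (.node z l r) y = hz ρ z ∪ (if ρ.x y z = 0 then RH ρ l y else RH ρ r y) := by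
  unfold RH hz
  ext e
  by_cases h0 : ρ.x y z = 0
  · simp only [DT.reads, if_pos h0, List.mem_cons, Finset.mem_filter, Finset.mem_union,
      exists_eq_or_imp]
    tauto
  · simp only [DT.reads, if_neg h0, List.mem_cons, Finset.mem_filter, Finset.mem_union,
      exists_eq_or_imp]
    tauto

/-- a run that is hit by many coarse edges is determined, up to the point where `K` of them have
been met, by the values of at most `K + 2 (D + 3)` coarse edges -/
theorem branch (ρ : Rst D) (K : ℕ) (y0 : Ch D) (A : DT (E D) Bool) :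
    ∀ H0 : Finset (E D), H0.card < K → K ≤ (H0 ∪ RH ρ A y0).card →
      ∃ H, H0 ⊆ H ∧ K ≤ H.card ∧ H.card ≤ K + 2 * (D + 3) ∧
        ∀ y : Ch D, (∀ e ∈ H, y e = y0 e) → H ⊆ H0 ∪ RH ρ A y := by
  induction A with
  | leaf b =>
    intro H0 h1 h2
    rw [RH_leaf, Finset.union_empty] at h2
    omega
  | node z l r ihl ihr =>
    intro H0 h1 h2
    by_cases hK : K ≤ (H0 ∪ hz ρ z).card
    · refine ⟨H0 ∪ hz ρ z, Finset.subset_union_left, hK, ?_, fun y _ => ?_⟩
      · have h3 := Finset.card_union_le H0 (hz ρ z)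
        have h4 := card_hz ρ z
        omega
      · rw [RH_node]
        exact Finset.union_subset_union_right Finset.subset_union_left
    · push Not at hK
      rw [RH_node, ← Finset.union_assoc] at h2
      by_cases h0 : ρ.x y0 z = 0
      · rw [if_pos h0] at h2
        obtain ⟨H, g1, g2, g3, g4⟩ := ihl (H0 ∪ hz ρ z) hK h2
        refine ⟨H, Finset.subset_union_left.trans g1, g2, g3, fun y hy => ?_⟩
        have h5 : ρ.x y z = 0 := by
          rw [x_congr_hz ρ fun e he => hy e (g1 (Finset.mem_union_right _ he))]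
          exact h0
        rw [RH_node, if_pos h5, ← Finset.union_assoc]
        exact g4 y hy
      · rw [if_neg h0] at h2
        obtain ⟨H, g1, g2, g3, g4⟩ := ihr (H0 ∪ hz ρ z) hK h2
        refine ⟨H, Finset.subset_union_left.trans g1, g2, g3, fun y hy => ?_⟩
        have h5 : ¬ ρ.x y z = 0 := by
          rw [x_congr_hz ρ fun e he => hy e (g1 (Finset.mem_union_right _ he))]
          exact h0
        rw [RH_node, if_neg h5, ← Finset.union_assoc]
        exact g4 y hy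

/-- if one run is hit by many coarse edges then so is a considerable fraction of all runs -/
theorem dense (ρ : Rst D) {K : ℕ} (hK : 0 < K) {n : ℕ} {t : V D} {y0 : Ch D} (h0 : Yt n t y0)
    (A : DT (E D) Bool) (h : K ≤ (RH ρ A y0).card) :
    (YF n t).card ≤ 2 ^ (K + 2 * (D + 3)) *
      ((YF n t).filter fun y => K ≤ (RH ρ A y).card).card := by
  obtain ⟨H, -, g2, g3, g4⟩ := branch ρ K y0 A ∅ (by simpa using hK)
    (by rw [Finset.empty_union]; exact h)
  refine (card_fiber h0 H).trans ?_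
  apply Nat.mul_le_mul (Nat.pow_le_pow_right (by norm_num) g3)
  apply Finset.card_le_card
  intro y hy
  rw [Finset.mem_filter] at hy ⊢
  refine ⟨hy.1, g2.trans (Finset.card_le_card ?_)⟩
  have := g4 y hy.2
  rwa [Finset.empty_union] at this

/-- the probability that some run of `A` is hit by many coarse edges -/
theorem pr_bad {n T N : ℕ} (hT : 0 < T) (hN : n * T ≤ N) (A : DT (E D) Bool) {s0 L : ℕ}
    (hA : A.depth ≤ s0) (hL : 1 ≤ L) (hs : 2 * (D + 3) * s0 * L ≤ T ^ (D + 2))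
    (t : V D) (ht : t ∈ box D n) (j : ℕ) :
    pr (fun ω : Om D n T N => ∃ y, Yt n t y ∧
      2 * (D + 3) * (j + 1) ≤ (RH (mkR hT ω.1 ω.2.1) A y).card) ≤
      2 ^ (2 * (D + 3) * (j + 2)) * (2 * (D + 3) * (3 / (L : ℝ) ^ j)) := by
  obtain ⟨K, hK⟩ : ∃ K, K = 2 * (D + 3) * (j + 1) := ⟨_, rfl⟩
  have hK0 : 0 < K := by rw [hK]; positivity
  rw [← hK]
  obtain ⟨y1, hy1⟩ := exists_Yt ht
  have hY : (0 : ℝ) < (YF n t).card := by
    exact_mod_cast Finset.card_pos.2 ⟨y1, mem_YF.2 hy1⟩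
  have hYne : ((YF n t).card : ℝ) ≠ 0 := hY.ne'
  have h2e : (2 : ℝ) ^ (2 * (D + 3) * (j + 2)) = 2 ^ (K + 2 * (D + 3)) := by
    rw [hK]
    congr 1
  rw [pr_eq_av, h2e]
  have h1 : av (fun ω : Om D n T N => if ∃ y, Yt n t y ∧
      K ≤ (RH (mkR hT ω.1 ω.2.1) A y).card then (1 : ℝ) else 0) ≤
      av (fun ω : Om D n T N => 2 ^ (K + 2 * (D + 3)) / ((YF n t).card : ℝ) *
        ∑ y ∈ YF n t, if K ≤ (RH (mkR hT ω.1 ω.2.1) A y).card then (1 : ℝ) else 0) := by
    apply av_mono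
    intro ω
    by_cases h : ∃ y, Yt n t y ∧ K ≤ (RH (mkR hT ω.1 ω.2.1) A y).card
    · rw [if_pos h]
      obtain ⟨y0, hy0, hy0'⟩ := h
      have h3 := dense (mkR hT ω.1 ω.2.1) hK0 hy0 A hy0'
      have h4 : ((YF n t).card : ℝ) ≤ 2 ^ (K + 2 * (D + 3)) *
          (((YF n t).filter fun y => K ≤ (RH (mkR hT ω.1 ω.2.1) A y).card).card : ℝ) := by
        exact_mod_cast h3
      rw [Finset.sum_ite, Finset.sum_const_zero, add_zero, Finset.sum_const, nsmul_eq_mul, mul_one,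
        div_mul_eq_mul_div, le_div_iff₀ hY, one_mul]
      exact h4
    · rw [if_neg h]
      apply mul_nonneg (by positivity)
      apply Finset.sum_nonneg
      intro y _
      split_ifs <;> norm_num
  refine h1.trans ?_
  rw [av_const_mul, av_sum]
  have h5 : ∀ y ∈ YF n t, av (fun ω : Om D n T N =>
      if K ≤ (RH (mkR hT ω.1 ω.2.1) A y).card then (1 : ℝ) else 0) ≤
      2 * (D + 3) * (3 / (L : ℝ) ^ j) := by
    intro y hy
    rw [← pr_eq_av, hK]
    exact fixed_y hT hN A hA hL hs ⟨t, ht⟩ (mem_YF.1 hy) j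
  calc 2 ^ (K + 2 * (D + 3)) / ((YF n t).card : ℝ) * ∑ y ∈ YF n t, av (fun ω : Om D n T N =>
      if K ≤ (RH (mkR hT ω.1 ω.2.1) A y).card then (1 : ℝ) else 0)
      ≤ 2 ^ (K + 2 * (D + 3)) / ((YF n t).card : ℝ) *
        ∑ _y ∈ YF n t, 2 * (D + 3) * (3 / (L : ℝ) ^ j) := by
        apply mul_le_mul_of_nonneg_left (Finset.sum_le_sum h5) (by positivity)
    _ = 2 ^ (K + 2 * (D + 3)) * (2 * (D + 3) * (3 / (L : ℝ) ^ j)) := by
        rw [Finset.sum_const, nsmul_eq_mul]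
        field_simp

/-- **the sample lemma for decision trees** -/
theorem exists_om {n T N k : ℕ} (hT : 0 < T) (hN : n * T ≤ N) (𝒯 : Finset (DT (E D) Bool))
    (hK : 𝒯.card ≤ 2 ^ k) {s0 : ℕ} (hA : ∀ A ∈ 𝒯, A.depth ≤ s0)
    (hs : 2 * (D + 3) * s0 * 2 ^ (4 * (D + 3)) ≤ T ^ (D + 2)) (hn : n ≤ 2 ^ (2 * k)) :
    ∃ ω : Om D n T N, ∀ A ∈ 𝒯, ∀ t ∈ box D n, ∀ y, Yt n t y →
      (RH (mkR hT ω.1 ω.2.1) A y).card ≤ 2 * (D + 3) * (2 * k + 5) := by
  have : Nonempty (Fin T) := ⟨⟨0, hT⟩⟩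
  obtain ⟨j, hj⟩ : ∃ j, j = 2 * k + 4 := ⟨_, rfl⟩
  obtain ⟨L, hL⟩ : ∃ L, L = 2 ^ (4 * (D + 3)) := ⟨_, rfl⟩
  have hL1 : 1 ≤ L := by rw [hL]; exact Nat.one_le_two_pow
  rw [← hL] at hs
  set Bad : Om D n T N → Prop := fun ω => ∃ p ∈ 𝒯 ×ˢ box D n, ∃ y, Yt n p.2 y ∧
    2 * (D + 3) * (j + 1) ≤ (RH (mkR hT ω.1 ω.2.1) p.1 y).card with hBad
  have hlt : pr Bad < 1 := by
    have h1 : pr Bad ≤ ∑ p ∈ 𝒯 ×ˢ box D n, pr (fun ω : Om D n T N => ∃ y, Yt n p.2 y ∧
        2 * (D + 3) * (j + 1) ≤ (RH (mkR hT ω.1 ω.2.1) p.1 y).card) :=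
      pr_exists_le (𝒯 ×ˢ box D n) fun p (ω : Om D n T N) => ∃ y, Yt n p.2 y ∧
        2 * (D + 3) * (j + 1) ≤ (RH (mkR hT ω.1 ω.2.1) p.1 y).card
    have h2 : ∑ p ∈ 𝒯 ×ˢ box D n, pr (fun ω : Om D n T N => ∃ y, Yt n p.2 y ∧
        2 * (D + 3) * (j + 1) ≤ (RH (mkR hT ω.1 ω.2.1) p.1 y).card) ≤
        ∑ _p ∈ 𝒯 ×ˢ box D n,
          (2 ^ (2 * (D + 3) * (j + 2)) * (2 * (D + 3) * (3 / (L : ℝ) ^ j))) := by
      apply Finset.sum_le_sum
      intro p hp
      rw [Finset.mem_product] at hp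
      exact pr_bad hT hN p.1 (hA _ hp.1) hL1 hs p.2 hp.2 j
    rw [Finset.sum_const, nsmul_eq_mul, Finset.card_product, FrS.stageP_card_box] at h2
    have h3 : 𝒯.card * n ^ (D + 3) * (2 ^ (2 * (D + 3) * (j + 2)) * (2 * (D + 3) * 3)) < L ^ j := by
      have h4 : D + 3 ≤ 2 ^ (D + 2) := Nat.lt_two_pow_self
      have h5 : n ^ (D + 3) ≤ 2 ^ (2 * k * (D + 3)) := by
        rw [pow_mul]
        exact Nat.pow_le_pow_left hn _
      calc 𝒯.card * n ^ (D + 3) * (2 ^ (2 * (D + 3) * (j + 2)) * (2 * (D + 3) * 3))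
          ≤ 2 ^ k * 2 ^ (2 * k * (D + 3)) *
            (2 ^ (2 * (D + 3) * (j + 2)) * (2 * 2 ^ (D + 2) * 4)) := by gcongr; norm_num
        _ = 2 ^ (k + 2 * k * (D + 3) + (2 * (D + 3) * (j + 2) + (D + 5))) := by
            rw [pow_add, pow_add, pow_add]
            ring
        _ < 2 ^ (4 * (D + 3) * j) := by
            apply Nat.pow_lt_pow_right (by norm_num)
            rw [hj]
            nlinarith
        _ = L ^ j := by rw [hL, ← pow_mul]
    have hLj : (0 : ℝ) < (L : ℝ) ^ j := by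
      have : (0 : ℝ) < L := by exact_mod_cast hL1
      positivity
    have h6 : ((𝒯.card * n ^ (D + 3) : ℕ) : ℝ) *
        (2 ^ (2 * (D + 3) * (j + 2)) * (2 * (D + 3) * (3 / (L : ℝ) ^ j))) < 1 := by
      have e1 : ((𝒯.card * n ^ (D + 3) : ℕ) : ℝ) *
          (2 ^ (2 * (D + 3) * (j + 2)) * (2 * (D + 3) * (3 / (L : ℝ) ^ j))) =
          ((𝒯.card * n ^ (D + 3) * (2 ^ (2 * (D + 3) * (j + 2)) * (2 * (D + 3) * 3)) : ℕ) : ℝ) /
            (L : ℝ) ^ j := by
        push_cast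
        ring
      rw [e1, div_lt_one hLj]
      exact_mod_cast h3
    exact lt_of_le_of_lt (h1.trans h2) h6
  obtain ⟨ω, hω⟩ := exists_of_pr_lt_one hlt
  refine ⟨ω, fun A hA' t ht y hy => ?_⟩
  by_contra hcon
  push Not at hcon
  apply hω
  refine ⟨(A, t), Finset.mem_product.2 ⟨hA', ht⟩, y, hy, ?_⟩
  rw [hj]
  have : 2 * (D + 3) * (2 * k + 4 + 1) = 2 * (D + 3) * (2 * k + 5) := by ring
  rw [this]
  exact hcon.le

end FrG
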