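import Pool.Agent.Lib.MP_51bb46_lc.S.Numeric

/-!
Decision tree gates (namespace `FrG`): choice of the parameters.
-/

set_option linter.unusedSectionVars false

namespace FrG

open Finset

/-- **choice of parameters**, with an arbitrary constant `Λ` -/
theorem numericL (D : ℕ) (δ : ℝ) (hδ : 0 < δ) (m Λ : ℕ) : ∃ c : ℝ, 0 < c ∧ ∀ C : ℕ, ∃ N₀ : ℕ,
    ∀ N ≥ N₀, ∃ s T s0 : ℕ, C ≤ s ∧ 0 < T ∧ s ^ m * T ≤ N ∧ Λ * s0 ≤ T ^ (D + 2) ∧
      2 * (D + 3) ≤ s0 ∧ (∀ q : ℕ, (q : ℝ) ≤ (N : ℝ) ^ ((D : ℝ) + 2 - δ) → q ≤ s0) ∧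
      (N : ℝ) ^ c ≤ s := by
  set e : ℝ := min δ (1 / 2) with he
  have he0 : 0 < e := lt_min hδ (by norm_num)
  have he1 : e ≤ 1 / 2 := min_le_right _ _
  have heδ : e ≤ δ := min_le_left _ _
  obtain ⟨M, hM⟩ : ∃ M : ℕ, ((m * (D + 2) + 1 : ℕ) : ℝ) / e ≤ M := exists_nat_ge _
  obtain ⟨M', hM'⟩ : ∃ M', M' = M + m + 1 := ⟨_, rfl⟩
  have hMe : ((m * (D + 2) + 1 : ℕ) : ℝ) ≤ M' * e := by
    have h1 : ((m * (D + 2) + 1 : ℕ) : ℝ) ≤ M * e := by rwa [← div_le_iff₀ he0]
    have h2 : (M : ℝ) * e ≤ M' * e := by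
      apply mul_le_mul_of_nonneg_right _ he0.le
      rw [hM']
      push_cast
      have : (0 : ℝ) ≤ m := Nat.cast_nonneg m
      linarith
    linarith
  have hM1 : 1 ≤ M' := by omega
  refine ⟨1 / (2 * M' + 2), by positivity, fun C => ?_⟩
  obtain ⟨S, hS⟩ : ∃ S : ℕ, S = Λ * 2 ^ (M' * (D + 2)) + C + 2 * (D + 3) + 2 := ⟨_, rfl⟩
  refine ⟨S ^ M', fun N hN => ?_⟩
  obtain ⟨s, hsN, hNs⟩ := FrS.exists_root_nat M' N hM1
  have hSs : S ≤ s := by
    by_contra h
    push Not at h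
    have : (s + 1) ^ M' ≤ S ^ M' := Nat.pow_le_pow_left h M'
    omega
  have hs1 : 1 ≤ s := by omega
  have hs1R : (1 : ℝ) ≤ s := by exact_mod_cast hs1
  have hNs2 : N ≤ (2 * s) ^ M' := hNs.le.trans (Nat.pow_le_pow_left (by omega) M')
  have hN1 : 1 ≤ N := le_trans (Nat.one_le_pow _ _ hs1) hsN
  have hN1R : (1 : ℝ) ≤ N := by exact_mod_cast hN1
  have hD0 : (0 : ℝ) ≤ D := Nat.cast_nonneg D
  have hM0 : (0 : ℝ) ≤ M' := Nat.cast_nonneg M'
  have hsN' : s ≤ N := by
    calc s = s ^ 1 := (pow_one s).symm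
      _ ≤ s ^ M' := Nat.pow_le_pow_right hs1 hM1
      _ ≤ N := hsN
  refine ⟨s, s ^ (M' - m), ⌊(N : ℝ) ^ ((D : ℝ) + 2 - e)⌋₊, by omega, Nat.pow_pos (by omega), ?_,
    ?_, ?_, ?_, ?_⟩
  · rw [← pow_add]
    have : m + (M' - m) = M' := by omega
    rw [this]
    exact hsN
  · have h1 : (Λ * ⌊(N : ℝ) ^ ((D : ℝ) + 2 - e)⌋₊ : ℝ) ≤ ((s ^ (M' - m)) ^ (D + 2) : ℕ) := by
      have hfl : (⌊(N : ℝ) ^ ((D : ℝ) + 2 - e)⌋₊ : ℝ) ≤ (N : ℝ) ^ ((D : ℝ) + 2 - e) :=
        Nat.floor_le (by positivity)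
      calc (Λ * ⌊(N : ℝ) ^ ((D : ℝ) + 2 - e)⌋₊ : ℝ)
          ≤ Λ * (N : ℝ) ^ ((D : ℝ) + 2 - e) := by gcongr
        _ ≤ Λ * (((2 * s : ℕ) : ℝ) ^ M') ^ ((D : ℝ) + 2 - e) := by
            apply mul_le_mul_of_nonneg_left _ (by positivity)
            apply Real.rpow_le_rpow (by linarith) _ (by linarith)
            exact_mod_cast hNs2
        _ = Λ * ((2 : ℝ) ^ ((M' : ℝ) * ((D : ℝ) + 2 - e)) *
              (s : ℝ) ^ ((M' : ℝ) * ((D : ℝ) + 2 - e))) := by
            rw [← Real.rpow_natCast, ← Real.rpow_mul (Nat.cast_nonneg _), Nat.cast_mul,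
              Real.mul_rpow (by norm_num) (by linarith)]
            norm_num
        _ ≤ Λ * ((2 : ℝ) ^ ((M' * (D + 2) : ℕ) : ℝ) *
              (s : ℝ) ^ (((M' - m) * (D + 2) : ℕ) - 1 : ℝ)) := by
            apply mul_le_mul_of_nonneg_left _ (by positivity)
            apply mul_le_mul _ _ (Real.rpow_nonneg (by linarith) _)
              (Real.rpow_nonneg (by norm_num) _)
            · apply Real.rpow_le_rpow_of_exponent_le (by norm_num)
              push_cast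
              nlinarith
            · apply Real.rpow_le_rpow_of_exponent_le hs1R
              have hsub : (((M' - m) * (D + 2) : ℕ) : ℝ) = ((M' : ℝ) - m) * (D + 2) := by
                rw [Nat.cast_mul, Nat.cast_sub (by omega)]
                push_cast
                ring
              rw [hsub]
              push_cast at hMe
              nlinarith
        _ = (Λ * 2 ^ (M' * (D + 2))) * (s : ℝ) ^ (((M' - m) * (D + 2) : ℕ) - 1 : ℝ) := by
            rw [Real.rpow_natCast]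
            ring
        _ ≤ (s : ℝ) * (s : ℝ) ^ (((M' - m) * (D + 2) : ℕ) - 1 : ℝ) := by
            apply mul_le_mul_of_nonneg_right _ (Real.rpow_nonneg (by linarith) _)
            have : Λ * 2 ^ (M' * (D + 2)) ≤ s := by omega
            exact_mod_cast this
        _ = (s : ℝ) ^ (((M' - m) * (D + 2) : ℕ) : ℝ) := by
            nth_rewrite 1 [← Real.rpow_one (s : ℝ)]
            rw [← Real.rpow_add (by linarith)]
            congr 1
            ring
        _ = ((s ^ (M' - m)) ^ (D + 2) : ℕ) := by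
            rw [Real.rpow_natCast, ← pow_mul]
            push_cast
            rfl
    exact_mod_cast h1
  · apply Nat.le_floor
    calc ((2 * (D + 3) : ℕ) : ℝ) ≤ (N : ℝ) := by
          have : 2 * (D + 3) ≤ N := by omega
          exact_mod_cast this
      _ = (N : ℝ) ^ (1 : ℝ) := (Real.rpow_one _).symm
      _ ≤ (N : ℝ) ^ ((D : ℝ) + 2 - e) := Real.rpow_le_rpow_of_exponent_le hN1R (by linarith)
  · intro q hq
    apply Nat.le_floor
    exact hq.trans (Real.rpow_le_rpow_of_exponent_le hN1R (by linarith))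
  · calc (N : ℝ) ^ (1 / (2 * (M' : ℝ) + 2))
        ≤ ((((s * s : ℕ)) : ℝ) ^ M') ^ (1 / (2 * (M' : ℝ) + 2)) := by
          apply Real.rpow_le_rpow (Nat.cast_nonneg _) _ (by positivity)
          have : N ≤ (s * s) ^ M' :=
            hNs2.trans (Nat.pow_le_pow_left (Nat.mul_le_mul_right _ (by omega)) M')
          exact_mod_cast this
      _ = (s : ℝ) ^ (2 * (M' : ℝ) * (1 / (2 * (M' : ℝ) + 2))) := by
          rw [Nat.cast_mul, ← pow_two, ← pow_mul, ← Real.rpow_natCast,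
            ← Real.rpow_mul (by linarith)]
          push_cast
          rfl
      _ ≤ (s : ℝ) ^ (1 : ℝ) := by
          apply Real.rpow_le_rpow_of_exponent_le hs1R
          rw [mul_one_div, div_le_one (by positivity)]
          linarith
      _ = s := Real.rpow_one _

end FrG
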