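import Pool.Agent.Lib.MP_51bb46_lc.G.DtBr
import Pool.Agent.Lib.MP_51bb46_lc.G.DtDefs
import Pool.Agent.Lib.MP_51bb46_lc.G.ValG

/-!
Decision tree gates (namespace `FrG`): the valuation.
-/

set_option linter.unusedSectionVars false

namespace FrG

open Finset Fr56 FrS
open scoped Classical

variable {D : ℕ}

/-! ### shallow formulas over the edges -/

/-- all subformulas of `f` have decision trees of depth at most `s` -/
def ShD (s : ℕ) (f : Fm (E D)) : Prop :=
  ∀ g ∈ f.subs, ∃ A : DT (E D) Bool, A.depth ≤ s ∧ ∀ x : Ch D, A.val x = g.eval fun z => tbit (x z)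

theorem bas_ShD {s : ℕ} (hs : 1 ≤ s) : Bas (ShD (D := D) s) where
  var v := by
    intro g hg
    simp only [Fm.subs, List.mem_singleton] at hg
    subst hg
    refine ⟨.node v (.leaf false) (.leaf true), by simpa [DT.depth] using hs, fun x => ?_⟩
    by_cases h : x v = 0
    · simp [DT.val, Fm.eval, tbit, h]
    · simp [DT.val, Fm.eval, tbit, h]
  neg f := by
    constructor
    · intro h g hg
      exact h g (by simp only [Fm.subs, List.mem_cons]; exact Or.inr hg)
    · intro h g hg
      simp only [Fm.subs, List.mem_cons] at hg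
      rcases hg with rfl | hg
      · obtain ⟨A, hA1, hA2⟩ := h f (Fm.self_mem_subs f)
        refine ⟨A.map fun b => !b, by rw [DT.depth_map]; exact hA1, fun x => ?_⟩
        rw [DT.val_map, hA2, Fm.eval]
      · exact h g hg
  and f g h := by
    constructor
    · intro g' hg'
      exact h g' (by
        simp only [Fm.subs, List.mem_cons, List.mem_append]
        exact Or.inr (Or.inl hg'))
    · intro g' hg'
      exact h g' (by
        simp only [Fm.subs, List.mem_cons, List.mem_append]
        exact Or.inr (Or.inr hg'))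
  or f g h := by
    constructor
    · intro g' hg'
      exact h g' (by
        simp only [Fm.subs, List.mem_cons, List.mem_append]
        exact Or.inr (Or.inl hg'))
    · intro g' hg'
      exact h g' (by
        simp only [Fm.subs, List.mem_cons, List.mem_append]
        exact Or.inr (Or.inr hg'))

theorem leaves_subs {X : Type} {f g : Fm X} (h : f ∈ g.subs) : f.leaves ≤ g.leaves := by
  induction g with
  | var v => simp only [Fm.subs, List.mem_singleton] at h; subst h; rfl
  | neg g ih =>
    simp only [Fm.subs, List.mem_cons] at h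
    rcases h with rfl | h
    · rfl
    · exact ih h
  | and g1 g2 ih1 ih2 =>
    simp only [Fm.subs, List.mem_cons, List.mem_append] at h
    rcases h with rfl | h | h
    · rfl
    · have := ih1 h; simp only [Fm.leaves]; omega
    · have := ih2 h; simp only [Fm.leaves]; omega
  | or g1 g2 ih1 ih2 =>
    simp only [Fm.subs, List.mem_cons, List.mem_append] at h
    rcases h with rfl | h | h
    · rfl
    · have := ih1 h; simp only [Fm.leaves]; omega
    · have := ih2 h; simp only [Fm.leaves]; omega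

/-- small formulas are shallow -/
theorem shD_of_leaves {s : ℕ} {f : Fm (E D)} (h : f.leaves ≤ s) : ShD s f := by
  intro g hg
  refine ⟨evT (g.map Sum.inl), ?_, fun x => ?_⟩
  · refine (depth_evT _).trans ?_
    rw [semL_vl2]
    exact (leaves_subs hg).trans h
  · rw [val_evT, Fm.eval_map]
    rfl

/-! ### from trees over Boolean variables -/

/-- the tree over the edges given by a tree over other variables -/
def toDT {X : Type} (τ : X → E D) : Dtree X → DT (E D) Bool
  | .leaf b => .leaf b
  | .node v l r => .node (τ v) (toDT τ l) (toDT τ r)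

theorem depth_toDT {X : Type} (τ : X → E D) (A : Dtree X) : (toDT τ A).depth = A.depth := by
  induction A with
  | leaf b => rfl
  | node v l r ihl ihr => simp only [toDT, DT.depth, Dtree.depth, ihl, ihr]

theorem val_toDT {X : Type} (τ : X → E D) (A : Dtree X) (x : Ch D) :
    (toDT τ A).val x = A.eval fun v => tbit (x (τ v)) := by
  induction A with
  | leaf b => rfl
  | node v l r ihl ihr =>
    by_cases h : x (τ v) = 0
    · simp [toDT, DT.val, Dtree.eval, tbit, h, ihl]
    · simp [toDT, DT.val, Dtree.eval, tbit, h, ihr]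

theorem subs_map' {X Y : Type} (τ : X → Y) (f : Fm X) : (f.map τ).subs = f.subs.map (Fm.map τ) := by
  induction f with
  | var v => rfl
  | neg f ih => simp [Fm.map, Fm.subs, ih]
  | and f g ihf ihg => simp [Fm.map, Fm.subs, ihf, ihg]
  | or f g ihf ihg => simp [Fm.map, Fm.subs, ihf, ihg]

theorem shD_map {X : Type} (τ : X → E D) {κ : ℝ} {s : ℕ} (hκ : ∀ q : ℕ, (q : ℝ) ≤ κ → q ≤ s)
    {f : Fm X} (hf : Shallow κ f) : ShD s (f.map τ) := by
  intro g hg
  rw [subs_map', List.mem_map] at hg
  obtain ⟨g', hg', rfl⟩ := hg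
  obtain ⟨A, hA1, hA2⟩ := hf g' hg'
  refine ⟨toDT τ A, ?_, fun x => ?_⟩
  · rw [depth_toDT]
    exact hκ _ hA1
  · rw [val_toDT, hA2, Fm.eval_map]
    rfl

/-! ### a false clause is read completely -/

private theorem disj_eval {X : Type} (d : Fm X) (l : List (Fm X)) (hl : l ≠ [])
    (x : X → Bool) : (Fm.disj d l).eval x = true ↔ ∃ f ∈ l, f.eval x = true := by
  induction l with
  | nil => exact absurd rfl hl
  | cons f l ih =>
    cases l with
    | nil => simp [Fm.disj]
    | cons g l =>
      have h := ih (by simp)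
      simp only [Fm.disj, Fm.eval, Bool.or_eq_true]
      rw [h]
      simp

/-- flipping a variable of a false clause makes it true -/
theorem clause_flip (u0 : E D) (N : ℕ) (v : FrS.V D) (P : Finset (E D)) {z : E D}
    (hz : z ∈ FrS.star N v) {x x' : E D → Bool} (hx : (clause u0 N v P).eval x = false)
    (hx' : x' z = !(x z)) : (clause u0 N v P).eval x' = true := by
  have hne : ((FrS.star N v).toList.map fun u => if u ∈ P then Fm.neg (.var u) else Fm.var u) ≠
      ([] : List (Fm (E D))) := by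
    intro h
    rw [List.map_eq_nil_iff, Finset.toList_eq_nil] at h
    rw [h] at hz
    simp at hz
  have h1 : ∀ x : E D → Bool, (clause u0 N v P).eval x = true ↔
      ∃ u ∈ FrS.star N v, ¬ (u ∈ P ↔ x u = true) := by
    intro x
    unfold clause
    rw [disj_eval _ _ hne]
    simp only [List.mem_map, Finset.mem_toList]
    constructor
    · rintro ⟨f, ⟨w, hw, rfl⟩, hu⟩
      refine ⟨w, hw, ?_⟩
      split_ifs at hu with h1
      · simp only [Fm.eval, Bool.not_eq_true'] at hu
        rw [hu]
        simp [h1]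
      · simp only [Fm.eval] at hu
        rw [hu]
        simp [h1]
    · rintro ⟨w, hw, hn⟩
      refine ⟨_, ⟨w, hw, rfl⟩, ?_⟩
      split_ifs with h1
      · simp only [Fm.eval, Bool.not_eq_true']
        by_contra hcon
        apply hn
        simp only [h1, true_iff]
        simpa using hcon
      · simp only [Fm.eval]
        by_contra hcon
        apply hn
        simp only [h1, false_iff]
        exact hcon
  rw [h1]
  refine ⟨z, hz, ?_⟩
  have h2 : ¬ ∃ u ∈ FrS.star N v, ¬ (u ∈ P ↔ x u = true) := by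
    rw [← h1, hx]
    simp
  push Not at h2
  have h3 := h2 z hz
  rw [hx', h3]
  cases x z <;> simp

/-- a tree that computes a clause reads all its variables if the value is `false` -/
theorem clause_reads (u0 : E D) (N : ℕ) (v : FrS.V D) (P : Finset (E D)) {z : E D}
    (hz : z ∈ FrS.star N v) (A : DT (E D) Bool)
    (hA : ∀ x : Ch D, A.val x = (clause u0 N v P).eval fun z => tbit (x z)) {x : Ch D}
    (hx : A.val x = false) : z ∈ A.reads x := by
  by_contra hcon
  have h1 := A.congr (x := x) (x' := Function.update x z (x z + 1)) fun e he => by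
    rw [Function.update_of_ne]
    rintro rfl
    exact hcon he
  have h2 : A.val (Function.update x z (x z + 1)) = true := by
    rw [hA]
    refine clause_flip u0 N v P hz (x := fun z => tbit (x z)) (by rw [← hA]; exact hx) ?_
    rw [Function.update_self]
    have h3 : ∀ c : ZMod 2, tbit (c + 1) = !(tbit c) := by
      unfold tbit
      decide
    exact h3 _
  rw [h1.2, hx] at h2
  exact Bool.false_ne_true h2

/-! ### the valuation -/

theorem run_congr (ρ : Rst D) (A : DT (E D) Bool) {y y' : Ch D}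
    (h : ∀ e ∈ RH ρ A y, y' e = y e) :
    RH ρ A y' = RH ρ A y ∧ A.val (ρ.x y') = A.val (ρ.x y) := by
  have h1 := A.congr (x := ρ.x y) (x' := ρ.x y') fun z hz' => x_congr_hz ρ fun e he => by
    apply h
    unfold RH
    unfold hz at he
    rw [Finset.mem_filter] at he ⊢
    exact ⟨he.1, z, hz', he.2⟩
  refine ⟨?_, h1.2⟩
  unfold RH
  rw [h1.1]

section
variable {V E' : Type} [Fintype V] [Fintype E'] [DecidableEq V] [DecidableEq E'] {G : FrC.Gph V E'}
  (Fr : FrC.Frame G) (v0 : V) (ρ : Rst D) (ν : FrD.Nmb V E' ρ.n)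
  (tr : Fm (E D) → DT (E D) Bool)

/-- the local truth relation -/
def dtQ (f : Fm (E D)) (b : Bool) (U : Finset V) (y : E' → ZMod 2) : Prop :=
  (∀ e ∈ RH ρ (tr f) (FrD.X G ν D v0 y), FrD.rv G ν e ⊆ U) ∧
    (tr f).val (ρ.x (FrD.X G ν D v0 y)) = b

theorem dt_congr (A : DT (E D) Bool) {U : Finset V} {y y' : E' → ZMod 2}
    (hU : ∀ e ∈ RH ρ A (FrD.X G ν D v0 y), FrD.rv G ν e ⊆ U) (hag : G.Agree U y y') :
    RH ρ A (FrD.X G ν D v0 y') = RH ρ A (FrD.X G ν D v0 y) ∧
      A.val (ρ.x (FrD.X G ν D v0 y')) = A.val (ρ.x (FrD.X G ν D v0 y)) :=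
  run_congr ρ A fun e he => (FrD.X_congr G ν (hU e he) hag).symm

/-- the valuation -/
def dtVal (Φ : Set (Fm (E D))) (cap : ℕ)
    (htr : ∀ f ∈ Φ, ∀ x : Ch D, (tr f).val x = f.eval fun z => tbit (x z)) :
    FrC.Valn Fr v0 (E D) Φ cap where
  Q := dtQ v0 ρ ν tr
  mono := by
    intro f _ b U U' y y' hU _ hQ hag _
    obtain ⟨h1, h2⟩ := hQ
    obtain ⟨h3, h4⟩ := dt_congr v0 ρ ν (tr f) h1 hag
    refine ⟨?_, h4.trans h2⟩
    rw [h3]
    exact fun e he => (h1 e he).trans hU
  uniq := by
    intro f _ U y _ _ h1 h2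
    have := h1.2.symm.trans h2.2
    exact Bool.noConfusion this
  neg := by
    intro f hf hn b b' U y _ _ h1 h2
    rw [← h1.2, ← h2.2, htr f hf, htr _ hn]
    rfl
  and := by
    intro f g hf hg hfg b b' b'' U y _ _ h1 h2 h3
    rw [← h1.2, ← h2.2, ← h3.2, htr f hf, htr g hg, htr _ hfg]
    rfl
  or := by
    intro f g hf hg hfg b b' b'' U y _ _ h1 h2 h3
    rw [← h1.2, ← h2.2, ← h3.2, htr f hf, htr g hg, htr _ hfg]
    rfl

/-- running a decision tree -/
theorem dt_run (Q : Bool → Finset V → (E' → ZMod 2) → Prop) (A : DT (E D) Bool)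
    (hQ : ∀ b U y, (∀ e ∈ RH ρ A (FrD.X G ν D v0 y), FrD.rv G ν e ⊆ U) →
      A.val (ρ.x (FrD.X G ν D v0 y)) = b → Q b U y) (K : ℕ)
    (hK : ∀ y, Fr.Ok v0 ∅ y → (RH ρ A (FrD.X G ν D v0 y)).card ≤ K) (B : DT (E D) Bool) :
    ∀ (H : Finset (E D)) (U : Finset V) (y : E' → ZMod 2), (∀ e ∈ H, FrD.rv G ν e ⊆ U) →
      (∀ y', G.Agree U y y' →
        RH ρ A (FrD.X G ν D v0 y') = H ∪ RH ρ B (FrD.X G ν D v0 y') ∧
        A.val (ρ.x (FrD.X G ν D v0 y')) = B.val (ρ.x (FrD.X G ν D v0 y'))) →
      FrC.Dec Fr v0 Q (4 * (K - H.card)) U y := by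
  induction B with
  | leaf b =>
    intro H U y hH h
    obtain ⟨h1, h2⟩ := h y (fun _ _ => rfl)
    refine FrC.Dec.leaf b (hQ b U y ?_ h2)
    rw [h1, RH_leaf, Finset.union_empty]
    exact hH
  | node z l r ihl ihr =>
    intro H U y hH h
    -- what is hit so far is hit by the whole run
    have hsub : ∀ y', G.Agree U y y' → H ∪ hz ρ z ⊆ RH ρ A (FrD.X G ν D v0 y') := by
      intro y' hag
      rw [(h y' hag).1, RH_node]
      exact Finset.union_subset_union_right Finset.subset_union_left
    by_cases hc : (H ∪ hz ρ z).card ≤ K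
    · have hcard : (H ∪ hz ρ z).card = H.card + (hz ρ z \ H).card := by
        rw [← Finset.union_sdiff_self_eq_union, Finset.card_union_of_disjoint
          Finset.disjoint_sdiff]
      have hN : ((hz ρ z \ H).biUnion (FrD.rv G ν)).card ≤ 4 * (hz ρ z \ H).card := by
        refine (Finset.card_biUnion_le_card_mul _ _ 4 fun e _ => FrD.card_rv G ν e).trans ?_
        rw [mul_comm]
      have hbud : 4 * (K - H.card) = 4 * (hz ρ z \ H).card + 4 * (K - (H ∪ hz ρ z).card) := by
        omega
      rw [hbud]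
      refine FrC.Dec.node ((hz ρ z \ H).biUnion (FrD.rv G ν)) hN fun y' hag _ => ?_
      set U' := U ∪ (hz ρ z \ H).biUnion (FrD.rv G ν) with hU'
      have hH' : ∀ e ∈ H ∪ hz ρ z, FrD.rv G ν e ⊆ U' := by
        intro e he
        by_cases heH : e ∈ H
        · exact (hH e heH).trans Finset.subset_union_left
        · have he' : e ∈ hz ρ z := by
            rcases Finset.mem_union.1 he with h1 | h1
            · exact absurd h1 heH
            · exact h1
          exact (Finset.subset_biUnion_of_mem (FrD.rv G ν)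
            (Finset.mem_sdiff.2 ⟨he', heH⟩)).trans Finset.subset_union_right
      have hagr : ∀ y'', G.Agree U' y' y'' → G.Agree U y y'' := fun y'' h' =>
        hag.trans (h'.mono Finset.subset_union_left)
      have hxe : ∀ y'', G.Agree U' y' y'' →
          ρ.x (FrD.X G ν D v0 y'') z = ρ.x (FrD.X G ν D v0 y') z := fun y'' h' =>
        x_congr_hz ρ fun e he => (FrD.X_congr G ν (hH' e (Finset.mem_union_right _ he)) h').symm
      by_cases h0 : ρ.x (FrD.X G ν D v0 y') z = 0
      · refine ihl (H ∪ hz ρ z) U' y' hH' fun y'' h' => ?_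
        obtain ⟨h1, h2⟩ := h y'' (hagr y'' h')
        have h3 : ρ.x (FrD.X G ν D v0 y'') z = 0 := (hxe y'' h').trans h0
        rw [h1, h2, RH_node, if_pos h3, Finset.union_assoc]
        simp only [DT.val, if_pos h3, and_self]
      · refine ihr (H ∪ hz ρ z) U' y' hH' fun y'' h' => ?_
        obtain ⟨h1, h2⟩ := h y'' (hagr y'' h')
        have h3 : ¬ ρ.x (FrD.X G ν D v0 y'') z = 0 := fun hc' => h0 ((hxe y'' h').symm.trans hc')
        rw [h1, h2, RH_node, if_neg h3, Finset.union_assoc]
        simp only [DT.val, if_neg h3, and_self]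
    · have hN : (∅ : Finset V).card ≤ 0 := by simp
      have hbud : 4 * (K - H.card) = 0 + 4 * (K - H.card) := by omega
      rw [hbud]
      refine FrC.Dec.node ∅ hN fun y' hag hok => ?_
      exfalso
      apply hc
      exact (Finset.card_le_card (hsub y' hag)).trans
        (hK y' (hok.mono (Finset.empty_subset _)))

theorem dtVal_dcds (Φ : Set (Fm (E D))) (cap : ℕ)
    (htr : ∀ f ∈ Φ, ∀ x : Ch D, (tr f).val x = f.eval fun z => tbit (x z)) {K : ℕ}
    (hK : ∀ f ∈ Φ, ∀ y, Fr.Ok v0 ∅ y → (RH ρ (tr f) (FrD.X G ν D v0 y)).card ≤ K) :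
    (dtVal Fr v0 ρ ν tr Φ cap htr).Dcds (4 * K) := by
  intro f hf y _
  have h := dt_run Fr v0 ρ ν (dtQ v0 ρ ν tr f) (tr f) (fun b U y h1 h2 => ⟨h1, h2⟩) K (hK f hf)
    (tr f) ∅ ∅ y (by simp) fun y' _ => ⟨by rw [Finset.empty_union], rfl⟩
  rw [Finset.card_empty, Nat.sub_zero] at h
  exact h

/-- tautologies are locally true -/
theorem dtVal_taut (Φ : Set (Fm (E D))) (cap w : ℕ)
    (htr : ∀ f ∈ Φ, ∀ x : Ch D, (tr f).val x = f.eval fun z => tbit (x z)) {f : Fm (E D)}
    (hf0 : ∀ x : Ch D, (tr f).val x = f.eval fun z => tbit (x z))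
    (hf : ∀ x, f.eval x = true) : (dtVal Fr v0 ρ ν tr Φ cap htr).True' w f := by
  intro U y _ _ hQ
  have h2 := hQ.2
  rw [hf0, hf] at h2
  exact Bool.noConfusion h2

/-- the clauses of the fine Tseitin formula are locally true -/
theorem dtVal_clause (Φ : Set (Fm (E D))) (cap w : ℕ)
    (htr : ∀ f ∈ Φ, ∀ x : Ch D, (tr f).val x = f.eval fun z => tbit (x z)) {N : ℕ}
    (hn : 2 ≤ ρ.n) (hgood : ρ.Good N) {p : FrS.V D × Finset (E D)} (hp : p ∈ clauses D N)
    (hf0 : ∀ x : Ch D, (tr (clause (0, 0) N p.1 p.2)).val x =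
      (clause (0, 0) N p.1 p.2).eval fun z => tbit (x z)) :
    (dtVal Fr v0 ρ ν tr Φ cap htr).True' w (clause (0, 0) N p.1 p.2) := by
  rintro U y _ ⟨t, ht, hfree⟩ ⟨hQ1, hQ2⟩
  have htU := Fr.disj hfree
  have hN : ρ.n * ρ.T ≤ N := hgood.2.2
  have hN2 : 2 ≤ N := hn.trans ((Nat.le_mul_of_pos_right ρ.n ρ.hT).trans hN)
  obtain ⟨hb, hY⟩ := FrD.Yt_X G ν (D := D) ht
  set t' : FrS.V D := FrD.p2 D (ν.ι t) 0 with ht'
  have hY' : Yt N (ρ.cen t') (ρ.x (FrD.X G ν D v0 y)) := Rst.Yt_x ρ hgood hb hY
  by_cases hv : ρ.cen t' = p.1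
  · have he : (t', (1 : Fin (D + 3))) ∈ edges D ρ.n := by
      rw [mem_edges]
      refine ⟨hb, ?_⟩
      rw [mem_box] at hb ⊢
      intro k
      have hk := hb k
      simp only
      rw [Pi.add_apply, ev_apply]
      split_ifs with h1
      · rw [h1, ht', FrD.p2_one]
        omega
      · rw [add_zero]
        exact hk
    have hbd : bd (ρ.Pe (t', 1)) (ρ.cen t') ≠ 0 := by
      rw [Rst.bd_Pe, Pi.add_apply, dl_self, dl_ne, add_zero]
      · exact one_ne_zero
      · intro hcon
        have h1 := congrFun hcon (1 : Fin (D + 3))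
        have h2 := congrArg (fun z : ℤ => z / ρ.T) h1
        simp only at h2
        rw [Rst.cen_div, Rst.cen_div, Pi.add_apply, ev_same] at h2
        omega
    obtain ⟨z, hz1, hz2⟩ := exists_of_bd hbd
    have hzN : z ∈ edges D N := by
      by_contra hcon
      apply hz1
      rw [mem_edges] at he
      exact supp_cp (Rst.cen_mem ρ hN he.1) (Rst.cen_mem ρ hN he.2) z hcon
    have hzs : z ∈ FrS.star N p.1 := by
      unfold FrS.star
      rw [← hv]
      exact Finset.mem_filter.2 ⟨hzN, hz2⟩
    have hzr := clause_reads (0, 0) N p.1 p.2 hzs (tr (clause (0, 0) N p.1 p.2)) hf0 hQ2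
    have hmem : (t', (1 : Fin (D + 3))) ∈
        RH ρ (tr (clause (0, 0) N p.1 p.2)) (FrD.X G ν D v0 y) := by
      unfold RH
      exact Finset.mem_filter.2 ⟨he, z, hzr, hz1⟩
    have := (FrD.far_of_rv G ν (hQ1 _ hmem) htU).1
    apply this
    rw [ht']
    exact FrD.p2_zero (D := D) (ν.ι t) 0
  · have h1 := clause_true hN2 (0, 0) hp hY' hv
    rw [hf0, h1] at hQ2
    exact Bool.noConfusion hQ2

end

end FrG
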