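import Pool.Agent.Lib.MP_51bb46_lc.G.FinalG
import Pool.Agent.Lib.MP_51bb46_lc.G.DtVal
import Pool.Agent.Lib.MP_51bb46_lc.G.DtNum

/-!
Decision tree gates (namespace `FrG`): the main theorem.
-/

set_option linter.unusedSectionVars false

namespace FrG

open Finset Fr56
open scoped Classical

/-- valuations for all small sets of shallow formulas -/
theorem exists_valn_dt {V E' : Type} [Fintype V] [Fintype E'] [DecidableEq V] [DecidableEq E']
    {G : FrC.Gph V E'} (Fr : FrC.Frame G) (v0 : V) {D n T N k kk cap s0 : ℕ}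
    (ν : FrD.Nmb V E' n) (hT : 0 < T) (hn : 2 ≤ n) (hN : n * T ≤ N)
    (hs0 : 2 * (D + 3) * s0 * 2 ^ (4 * (D + 3)) ≤ T ^ (D + 2)) (hs1 : 2 * (D + 3) ≤ s0)
    (hnk : n ≤ 2 ^ (2 * k)) (hkk : 4 * (2 * (D + 3) * (2 * k + 5)) ≤ kk)
    (Fs : Finset (Fm (FrS.E D))) (hcard : Fs.card ≤ 2 ^ k) (hFs : ∀ f ∈ Fs, ShD s0 f) :
    ∃ S : FrC.Valn Fr v0 (FrS.E D) {f | f ∈ Fs} cap, S.Dcds kk ∧
      ∀ F ∈ ({FrS.Ts D N} ∪ {A | ShD s0 A ∧ ∀ x, A.eval x = true} :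
        Set (Fm (FrS.E D))), AndOf (fun f => ShD s0 f ∧ S.True' kk f) F := by
  -- the trees
  have htree : ∀ f : Fm (FrS.E D), ∃ A : FrS.DT (FrS.E D) Bool, A.depth ≤ s0 ∧ (ShD s0 f →
      ∀ x : FrS.Ch D, A.val x = f.eval fun z => FrS.tbit (x z)) := by
    intro f
    by_cases h : ShD s0 f
    · obtain ⟨A, h1, h2⟩ := h f (Fm.self_mem_subs f)
      exact ⟨A, h1, fun _ => h2⟩
    · exact ⟨.leaf false, Nat.zero_le _, fun h' => absurd h' h⟩
  choose tr htr1 htr2 using htree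
  obtain ⟨ω, hω⟩ := exists_om (D := D) (n := n) (T := T) (N := N) (k := k) hT hN (Fs.image tr)
    (Finset.card_image_le.trans hcard) (s0 := s0) (by
      intro A hA
      obtain ⟨f, _, rfl⟩ := Finset.mem_image.1 hA
      exact htr1 f) hs0 hnk
  have hN2 : 2 ≤ N := hn.trans ((Nat.le_mul_of_pos_right n hT).trans hN)
  have hgood : (FrS.mkR hT ω.1 ω.2.1).Good N := FrS.mkR_good hT hN ω
  have htr : ∀ f ∈ {f | f ∈ Fs}, ∀ x : FrS.Ch D,
      (tr f).val x = f.eval fun z => FrS.tbit (x z) := fun f hf => htr2 f (hFs f hf)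
  refine ⟨dtVal Fr v0 (FrS.mkR hT ω.1 ω.2.1) ν tr {f | f ∈ Fs} cap htr, ?_, ?_⟩
  · intro f hf y hy
    refine (dtVal_dcds Fr v0 (FrS.mkR hT ω.1 ω.2.1) ν tr {f | f ∈ Fs} cap htr
      (K := 2 * (D + 3) * (2 * k + 5)) (fun g hg y' hy' => ?_) f hf y hy).mono hkk
    obtain ⟨t, ht, _⟩ := hy'
    obtain ⟨hb, hY⟩ := FrD.Yt_X G ν (D := D) ht
    exact hω _ (Finset.mem_image_of_mem tr hg) _ hb _ hY
  · rintro F (hF | ⟨hF1, hF2⟩)
    · rw [Set.mem_singleton_iff] at hF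
      subst hF
      refine FrS.Ts_induction hN2 (fun F => AndOf _ F) ?_ ?_
      · intro p hp _
        have hsh : ShD s0 (FrS.clause (0, 0) N p.1 p.2) :=
          shD_of_leaves ((FrS.leaves_clause (0, 0) N (v := p.1) p.2).trans hs1)
        exact AndOf.base _ ⟨hsh, dtVal_clause Fr v0 (FrS.mkR hT ω.1 ω.2.1) ν tr _ cap kk htr hn
          hgood hp (htr2 _ hsh)⟩
      · intro f g _ h1 h2
        exact AndOf.and f g h1 h2
    · exact AndOf.base F ⟨hF1, dtVal_taut Fr v0 (FrS.mkR hT ω.1 ω.2.1) ν tr _ cap kk htr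
        (htr2 F hF1) hF2⟩

/-- **decision tree gates, grid form** -/
theorem main_grid_dt (D d : ℕ) (δ : ℝ) (hδ : 0 < δ) : ∃ c : ℝ, 0 < c ∧
    ∀ R : List Rule, (∀ r ∈ R, r.Sound) → ∀ b : Fm ℕ, b.Unsat →
      ∃ N₀, ∀ N ≥ N₀, ∀ π : List (Fm ℕ),
        Derives R ({FrS.TsN D N} ∪ {A | Shallow ((N : ℝ) ^ ((D : ℝ) + 2 - δ)) A ∧
          ∀ x, A.eval x = true}) π → b ∈ π →
        (∀ A ∈ π, ∃ (B : Fm ℕ) (σ : ℕ → Fm ℕ), A = B.subst σ ∧ FrC.depth B ≤ d ∧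
          ∀ v, Shallow ((N : ℝ) ^ ((D : ℝ) + 2 - δ)) (σ v)) →
        (2 : ℝ) ^ ((N : ℝ) ^ c) ≤ ((subSet π).ncard : ℕ) := by
  obtain ⟨A0, hA0⟩ : ∃ A0, A0 = 24 * (D + 3) := ⟨_, rfl⟩
  obtain ⟨a, k0, htow⟩ := towers d A0 A0
  obtain ⟨c, hc, hnumeric⟩ := numericL D δ hδ (2 * a + 1) (2 * (D + 3) * 2 ^ (4 * (D + 3)))
  obtain ⟨K2, hK2⟩ := FrC.tw_exp (2 * a + 1)
  refine ⟨c, hc, fun R hR b hb => ?_⟩
  obtain ⟨C, hC, hCb⟩ : ∃ C, (∀ r ∈ R, r.nodes + 1 ≤ C) ∧ b.size + 1 ≤ C := by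
    refine ⟨(R.map fun r => r.nodes + 1).sum + (b.size + 1), fun r hr => ?_, by omega⟩
    have := List.single_le_sum (l := R.map fun r => r.nodes + 1) (by simp) _
      (List.mem_map_of_mem hr)
    omega
  obtain ⟨N₁, hN₁⟩ := hnumeric (C + k0 + K2 + D + 7)
  refine ⟨N₁, fun N hN π hπ hbπ hs => ?_⟩
  by_contra hlt
  push Not at hlt
  obtain ⟨s, T, s0, h1, hT, hnT, hs0, hs1, hfl, hNc⟩ := hN₁ N hN
  obtain ⟨V, E, iV, iE, dV, dE, G, Fr, v0, hl, hdeg, h0, hcV, hcE, hBm, hkill⟩ :=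
    htow s (by omega)
  have hs2 : (s + 2) ^ a ≤ s ^ (2 * a + 1) := by
    calc (s + 2) ^ a ≤ (s * s) ^ a := Nat.pow_le_pow_left (by nlinarith) a
      _ = s ^ (2 * a) := by rw [← pow_two, ← pow_mul]
      _ ≤ s ^ (2 * a + 1) := Nat.pow_le_pow_right (by omega) (by omega)
  have hn2 : 2 ≤ s ^ (2 * a + 1) := by
    calc 2 ≤ s := by omega
      _ = s ^ 1 := (pow_one s).symm
      _ ≤ s ^ (2 * a + 1) := Nat.pow_le_pow_right (by omega) (by omega)
  obtain ⟨ν⟩ := FrD.exists_nmb (V := V) (E := E) (hcV.trans hs2) (hcE.trans hs2)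
  have htot : (subSet π).ncard ≤ 2 ^ s := by
    have h1 : (((subSet π).ncard : ℕ) : ℝ) ≤ ((2 ^ s : ℕ) : ℝ) := by
      refine hlt.le.trans ?_
      push_cast
      rw [← Real.rpow_natCast]
      exact Real.rpow_le_rpow_of_exponent_le (by norm_num) hNc
    exact_mod_cast h1
  have hvar : ∀ f : Fm ℕ, Shallow ((N : ℝ) ^ ((D : ℝ) + 2 - δ)) f →
      ShD s0 (f.map (FrS.decE D)) := fun f hf => shD_map _ hfl hf
  have hnk : s ^ (2 * a + 1) ≤ 2 ^ (2 * s) := by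
    have h1 := hK2 s (by omega)
    have h2 : s ^ (2 * a + 1) ≤ (s + 2) ^ (2 * a + 1) := Nat.pow_le_pow_left (by omega) _
    omega
  have hs0' : 2 * (D + 3) * s0 * 2 ^ (4 * (D + 3)) ≤ T ^ (D + 2) := by
    refine le_trans (le_of_eq ?_) hs0
    ring
  refine no_small Fr v0 (d := d) (k := s) (kk := A0 * s) (cap := s * (A0 * s)) hkill
    (B := ShD s0) (bas_ShD (by omega)) le_rfl (by
      refine le_trans (le_of_eq ?_) hBm
      ring)
    ({FrS.Ts D N} ∪ {A | ShD s0 A ∧ ∀ x, A.eval x = true})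
    (fun Fs hF1 hF2 => exists_valn_dt Fr v0 ν hT hn2 hnT hs0' hs1 hnk ?_ Fs hF1 hF2) R hR
    (fun r hr => (hC r hr).trans (by omega)) b hb (hCb.trans (by omega)) (FrS.decE D)
    (π.map (Fm.map (FrS.decE D))) ?_ ?_ ?_ ?_
  · rw [hA0]
    have : 2 * s + 5 ≤ 3 * s := by omega
    calc 4 * (2 * (D + 3) * (2 * s + 5)) ≤ 4 * (2 * (D + 3) * (3 * s)) := by gcongr
      _ = 24 * (D + 3) * s := by ring
  · refine derives_map (FrS.decE D) hπ ?_
    rintro A (hA | ⟨hA1, hA2⟩)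
    · rw [Set.mem_singleton_iff] at hA
      subst hA
      exact Or.inl (FrS.TsN_dec D N)
    · refine Or.inr ⟨hvar A hA1, fun x => ?_⟩
      rw [Fm.eval_map]
      exact hA2 _
  · exact List.mem_map_of_mem hbπ
  · intro A hA
    obtain ⟨A1, hA1, rfl⟩ := List.mem_map.1 hA
    obtain ⟨B, σ, rfl, hB, hσ⟩ := hs A1 hA1
    rw [map_subst]
    exact (lev_subst (bas_ShD (by omega)) B _ fun v => hvar (σ v) (hσ v)).trans hB
  · exact (ncard_subSet_map _ π).trans htot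

theorem Shallow.mono {X : Type} {κ κ' : ℝ} (h : κ ≤ κ') {f : Fm X} (hf : Shallow κ f) :
    Shallow κ' f := fun g hg => by
  obtain ⟨A, h1, h2⟩ := hf g hg
  exact ⟨A, h1.trans h, h2⟩

/-- **decision tree gates**: one family of CNFs for all depths, gates of decision tree depth
`|F| ^ (1 - ε)` -/
theorem main_exp_dt (ε : ℝ) (hε : 0 < ε) : ∃ (w : ℕ) (F : ℕ → Fm ℕ),
    (∀ n, (F n).Unsat ∧ (F n).IsCNF w ∧ n ≤ (F n).size) ∧
    ∀ d : ℕ, ∃ c : ℝ, 0 < c ∧ ∀ R : List Rule, (∀ r ∈ R, r.Sound) → ∀ b : Fm ℕ, b.Unsat →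
      ∃ n₀, ∀ n ≥ n₀, ∀ π : List (Fm ℕ),
        Derives R ({F n} ∪ {A | Shallow (((F n).size : ℝ) ^ (1 - ε)) A ∧
          ∀ x, A.eval x = true}) π → b ∈ π →
        (∀ A ∈ π, ∃ (B : Fm ℕ) (σ : ℕ → Fm ℕ), A = B.subst σ ∧ FrC.depth B ≤ d ∧
          ∀ v, Shallow (((F n).size : ℝ) ^ (1 - ε)) (σ v)) →
        (2 : ℝ) ^ (((F n).size : ℝ) ^ c) ≤ ((subSet π).ncard : ℕ) := by
  -- the dimension
  obtain ⟨D, hD⟩ : ∃ D : ℕ, 4 ≤ ((D : ℝ) + 3) * ε := by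
    obtain ⟨D, hD⟩ := exists_nat_ge (4 / ε)
    refine ⟨D, ?_⟩
    rw [div_le_iff₀ hε] at hD
    nlinarith
  have hD0 : (0 : ℝ) ≤ D := Nat.cast_nonneg D
  set K : ℝ := 2 ^ (2 * (D + 3)) * (4 * (D + 3) + 1) * 2 with hK
  have hK1 : 1 ≤ K := by
    rw [hK]
    have h1 : (1 : ℝ) ≤ 2 ^ (2 * (D + 3)) := one_le_pow₀ (by norm_num)
    have h2 : (1 : ℝ) ≤ 4 * (D + 3) + 1 := by linarith
    nlinarith [mul_le_mul h1 h2 zero_le_one (zero_le_one.trans h1)]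
  have hsize : ∀ n : ℕ, ((FrS.TsN D (n + 2)).size : ℝ) ≤ K * ((n + 2 : ℕ) : ℝ) ^ (D + 3) := by
    intro n
    rw [FrS.TsN_size]
    have h := FrS.Ts_size (D := D) (N := n + 2) (by omega)
    have h' : ((FrS.Ts D (n + 2)).size : ℝ) ≤
        (((n + 2) ^ (D + 3) * 2 ^ (2 * (D + 3)) * (4 * (D + 3) + 1) * 2 : ℕ) : ℝ) := by
      exact_mod_cast h
    refine h'.trans (le_of_eq ?_)
    rw [hK]
    push_cast
    ring
  refine ⟨2 * (D + 3), fun n => FrS.TsN D (n + 2), fun n => ⟨FrS.TsN_unsat D (by omega),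
    FrS.TsN_cnf D (by omega), ?_⟩, fun d => ?_⟩
  · rw [FrS.TsN_size]
    refine le_trans ?_ (FrS.le_Ts_size (by omega))
    calc n ≤ n + 2 := by omega
      _ = (n + 2) ^ 1 := (pow_one _).symm
      _ ≤ (n + 2) ^ (D + 3) := Nat.pow_le_pow_right (by omega) (by omega)
  · obtain ⟨c, hc, hmain⟩ := main_grid_dt D d 1 one_pos
    set c' : ℝ := c / (2 * (D + 3)) with hc'
    have hc'0 : 0 < c' := by positivity
    refine ⟨c', hc'0, fun R hR b hb => ?_⟩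
    obtain ⟨N₀, hN₀⟩ := hmain R hR b hb
    obtain ⟨N₁, hN₁⟩ := FrS.eventually_const_le (K ^ (1 : ℝ)) 1 one_pos
    obtain ⟨N₂, hN₂⟩ := FrS.eventually_const_le (K ^ c') (c / 2) (by positivity)
    refine ⟨N₀ + N₁ + N₂, fun n hn π hπ hbπ hs => ?_⟩
    set N : ℕ := n + 2 with hN
    have hNpos : (0 : ℝ) < (N : ℝ) := by rw [hN]; positivity
    have hN1 : (1 : ℝ) ≤ (N : ℝ) := by
      rw [hN]; push_cast; linarith [(Nat.cast_nonneg n : (0:ℝ) ≤ n)]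
    have hF := hsize n
    have hF1 : (1 : ℝ) ≤ ((FrS.TsN D N).size : ℝ) := by
      have h1 := FrS.le_Ts_size (D := D) (N := N) (by omega)
      have h2 : 1 ≤ N ^ (D + 3) := Nat.one_le_pow _ _ (by omega)
      rw [FrS.TsN_size]
      exact_mod_cast h2.trans h1
    have key : ∀ a : ℝ, 0 ≤ a →
        ((FrS.TsN D N).size : ℝ) ^ a ≤ K ^ a * (N : ℝ) ^ ((D + 3) * a) := by
      intro a ha
      calc ((FrS.TsN D N).size : ℝ) ^ a ≤ (K * ((N : ℕ) : ℝ) ^ (D + 3)) ^ a := by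
            apply Real.rpow_le_rpow (by linarith) _ ha
            exact hF
        _ = K ^ a * (N : ℝ) ^ ((D + 3) * a) := by
            rw [Real.mul_rpow (by linarith) (by positivity), ← Real.rpow_natCast,
              ← Real.rpow_mul hNpos.le]
            push_cast
            rfl
    have hbound : ((FrS.TsN D N).size : ℝ) ^ (1 - ε) ≤ (N : ℝ) ^ ((D : ℝ) + 2 - 1) := by
      by_cases h2ε : 0 ≤ 1 - ε
      · calc ((FrS.TsN D N).size : ℝ) ^ (1 - ε) ≤ K ^ (1 - ε) * (N : ℝ) ^ ((D + 3) * (1 - ε)) :=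
              key _ h2ε
          _ ≤ (N : ℝ) ^ (1 : ℝ) * (N : ℝ) ^ ((D : ℝ) + 2 - 2) := by
              have h1 : K ^ (1 - ε) ≤ (N : ℝ) ^ (1 : ℝ) :=
                (Real.rpow_le_rpow_of_exponent_le hK1 (by linarith)).trans (hN₁ N (by omega))
              have h2 : (N : ℝ) ^ (((D : ℝ) + 3) * (1 - ε)) ≤ (N : ℝ) ^ ((D : ℝ) + 2 - 2) := by
                apply Real.rpow_le_rpow_of_exponent_le hN1
                nlinarith
              gcongr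
          _ = (N : ℝ) ^ ((D : ℝ) + 2 - 1) := by
              rw [← Real.rpow_add hNpos]
              congr 1
              ring
      · push Not at h2ε
        calc ((FrS.TsN D N).size : ℝ) ^ (1 - ε) ≤ 1 :=
              Real.rpow_le_one_of_one_le_of_nonpos hF1 h2ε.le
          _ ≤ (N : ℝ) ^ ((D : ℝ) + 2 - 1) := by
              apply Real.one_le_rpow hN1
              linarith
    have hder : Derives R ({FrS.TsN D N} ∪ {A | Shallow ((N : ℝ) ^ ((D : ℝ) + 2 - 1)) A ∧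
        ∀ x, A.eval x = true}) π := by
      intro i hi
      rcases hπ i hi with (h | ⟨h1, h2⟩) | h
      · exact Or.inl (Or.inl h)
      · exact Or.inl (Or.inr ⟨h1.mono hbound, h2⟩)
      · exact Or.inr h
    have hlen := hN₀ N (by omega) π hder hbπ (fun A hA => by
      obtain ⟨B, σ, h1, h2, h3⟩ := hs A hA
      exact ⟨B, σ, h1, h2, fun v => (h3 v).mono hbound⟩)
    refine le_trans ?_ hlen
    apply Real.rpow_le_rpow_of_exponent_le (by norm_num)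
    calc ((FrS.TsN D N).size : ℝ) ^ c' ≤ K ^ c' * (N : ℝ) ^ ((D + 3) * c') := key c' hc'0.le
      _ ≤ (N : ℝ) ^ (c / 2) * (N : ℝ) ^ (c / 2) := by
          have h1 := hN₂ N (by omega)
          have h2 : ((D : ℝ) + 3) * c' = c / 2 := by
            rw [hc']
            field_simp
          rw [h2]
          gcongr
      _ = (N : ℝ) ^ c := by
          rw [← Real.rpow_add hNpos]
          congr 1
          ring

end FrG
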