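import Pool.Agent.Lib.MP_51bb46_lc.G.DtSamp
import Pool.Agent.Lib.MP_51bb46_lc.S.Four

/-!
Decision tree gates (namespace `FrG`): the run of a tree for a fixed coarse assignment; fibres.
-/

set_option linter.unusedSectionVars false

namespace FrG

open Finset Fr56 FrS
open scoped Classical

variable {D : ℕ}

/-- the coarse edges that are hit by the run of the tree `A` -/
noncomputable def RH (ρ : Rst D) (A : DT (E D) Bool) (y : Ch D) : Finset (E D) :=
  (edges D ρ.n).filter fun e => ∃ z ∈ A.reads (ρ.x y), ρ.Pe e z ≠ 0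

/-- sums over a coset -/
theorem sum_coset {N : ℕ} {v : V D} {x0 : Ch D} (h0 : Yt N v x0) (f : Ch D → ℝ) :
    ∑ β : ↥(cyc D N), f (β.1 + x0) = ∑ x ∈ YF N v, f x := by
  have hmem : ∀ β ∈ cyc D N, β + x0 ∈ YF N v := by
    intro β hβ
    rw [mem_YF, add_comm]
    exact h0.add_closed (mem_cyc.1 hβ).1 (mem_cyc.1 hβ).2
  rw [← Finset.sum_coe_sort (YF N v) f]
  apply Fintype.sum_bijective (fun β : ↥(cyc D N) =>
    (⟨β.1 + x0, hmem β.1 β.2⟩ : ↥(YF N v)))
  · constructor
    · intro β β' h
      have h1 : β.1 + x0 = β'.1 + x0 := congrArg Subtype.val h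
      exact Subtype.ext (add_right_cancel h1)
    · rintro ⟨x, hx⟩
      have h1 : Yt N v x := mem_YF.1 hx
      refine ⟨⟨x + x0, mem_cyc.2 (h1.sub_closed h0)⟩, ?_⟩
      apply Subtype.ext
      dsimp only
      rw [add_assoc, add_self_fun, add_zero]
  · intro β
    rfl

/-- prescribing the values on `H` costs at most a factor `2 ^ |H|` -/
theorem card_fiber {n : ℕ} {t : V D} {y0 : Ch D} (h0 : Yt n t y0) (H : Finset (E D)) :
    (YF n t).card ≤ 2 ^ H.card * ((YF n t).filter fun y => ∀ e ∈ H, y e = y0 e).card := by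
  set f : Ch D → (↥H → ZMod 2) := fun y e => y e.1 with hf
  have h1 : (YF n t).card ≤
      ((YF n t).filter fun y => ∀ e ∈ H, y e = y0 e).card * ((YF n t).image f).card := by
    apply Finset.card_le_mul_card_image
    intro q hq
    obtain ⟨y1, hy1, rfl⟩ := Finset.mem_image.1 hq
    apply Finset.card_le_card_of_injOn (fun y => y + y1 + y0)
    · intro y hy
      rw [Finset.mem_coe, Finset.mem_filter] at hy ⊢
      dsimp only
      obtain ⟨hy2, hy3⟩ := hy
      have hc := (mem_YF.1 hy2).sub_closed (mem_YF.1 hy1)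
      constructor
      · rw [mem_YF, add_comm]
        exact h0.add_closed hc.1 hc.2
      · intro e he
        have h4 : y e = y1 e := congrFun hy3 ⟨e, he⟩
        rw [Pi.add_apply, Pi.add_apply, h4, CharTwo.add_self_eq_zero, zero_add]
    · intro y _ y' _ h
      dsimp only at h
      exact add_right_cancel (add_right_cancel h)
  have h2 : ((YF n t).image f).card ≤ 2 ^ H.card := by
    refine (Finset.card_le_univ _).trans (le_of_eq ?_)
    rw [Fintype.card_fun, ZMod.card, Fintype.card_coe]
  calc (YF n t).card ≤ _ := h1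
    _ ≤ ((YF n t).filter fun y => ∀ e ∈ H, y e = y0 e).card * 2 ^ H.card :=
        Nat.mul_le_mul_left _ h2
    _ = _ := mul_comm _ _

/-- coarse edges at a vertex -/
theorem card_edges_at (n : ℕ) (t : V D) :
    ((edges D n).filter fun e => e.1 = t ∨ e.1 + ev e.2 = t).card ≤ 2 * (D + 3) := by
  have h1 : ((edges D n).filter fun e => e.1 = t ∨ e.1 + ev e.2 = t) ⊆
      ((univ : Finset (Fin (D + 3))) ×ˢ (univ : Finset Bool)).image
        (fun p => ((if p.2 = true then t - ev p.1 else t, p.1) : E D)) := by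
    rintro ⟨u, i⟩ he
    rw [Finset.mem_filter] at he
    obtain ⟨_, h⟩ := he
    dsimp only at h
    rw [Finset.mem_image]
    rcases h with h | h
    · exact ⟨(i, false), by simp, by rw [← h]; simp⟩
    · refine ⟨(i, true), by simp, ?_⟩
      rw [Prod.mk.injEq]
      refine ⟨?_, rfl⟩
      rw [if_pos rfl, ← h, add_sub_cancel_right]
  refine (Finset.card_le_card h1).trans (Finset.card_image_le.trans ?_)
  rw [Finset.card_product, Finset.card_univ, Finset.card_univ, Fintype.card_fin,
    Fintype.card_bool]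
  omega

/-- the coarse edges that are hit, by colours -/
theorem card_RH_lt {n T : ℕ} (hT : 0 < T) (a : Asg D n T) (β : Ch D) (A : DT (E D) Bool)
    (y : Ch D) (t : V D) (j : ℕ)
    (h : ∀ c : Fin (D + 3) × Bool,
      nh' hT t (A.reads ((mkR hT a β).x y)).toFinset c a < j) :
    (RH (mkR hT a β) A y).card < 2 * (D + 3) * (j + 1) := by
  set κ := (A.reads ((mkR hT a β).x y)).toFinset with hκ
  have h1 : RH (mkR hT a β) A y ⊆
      ((edges D n).filter fun e => e.1 = t ∨ e.1 + ev e.2 = t) ∪
      (univ : Finset (Fin (D + 3) × Bool)).biUnion fun c =>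
        (((edges D n).filter fun e => ecol e = c ∧ e.1 ≠ t ∧ e.1 + ev e.2 ≠ t).filter
          fun e => Hit hT κ e a) := by
    intro e he
    unfold RH at he
    rw [Finset.mem_filter] at he
    obtain ⟨he1, z, hz, hz'⟩ := he
    have he1' : e ∈ edges D n := he1
    rw [Finset.mem_union, Finset.mem_filter]
    by_cases ht : e.1 = t ∨ e.1 + ev e.2 = t
    · exact Or.inl ⟨he1', ht⟩
    · push Not at ht
      refine Or.inr ?_
      rw [Finset.mem_biUnion]
      refine ⟨ecol e, Finset.mem_univ _, ?_⟩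
      rw [Finset.mem_filter, Finset.mem_filter]
      refine ⟨⟨he1', rfl, ht⟩, z, ?_, hz'⟩
      rw [hκ, List.mem_toFinset]
      exact hz
  have h2 : ((univ : Finset (Fin (D + 3) × Bool)).biUnion fun c =>
        (((edges D n).filter fun e => ecol e = c ∧ e.1 ≠ t ∧ e.1 + ev e.2 ≠ t).filter
          fun e => Hit hT κ e a)).card < 2 * (D + 3) * j := by
    refine lt_of_le_of_lt Finset.card_biUnion_le ?_
    calc ∑ c : Fin (D + 3) × Bool,
        (((edges D n).filter fun e => ecol e = c ∧ e.1 ≠ t ∧ e.1 + ev e.2 ≠ t).filter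
          fun e => Hit hT κ e a).card
        < ∑ _c : Fin (D + 3) × Bool, j :=
          Finset.sum_lt_sum_of_nonempty ⟨(0, true), Finset.mem_univ _⟩ fun c _ => h c
      _ = 2 * (D + 3) * j := by
          rw [Finset.sum_const, Finset.card_univ, Fintype.card_prod, Fintype.card_fin,
            Fintype.card_bool, smul_eq_mul]
          ring
  have h3 := card_edges_at n t
  calc (RH (mkR hT a β) A y).card ≤ _ := Finset.card_le_card h1
    _ ≤ _ := Finset.card_union_le _ _
    _ < 2 * (D + 3) * (j + 1) := by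
        rw [Nat.mul_add, Nat.mul_one]
        omega

/-- **fixed coarse assignment**: the run of a shallow tree is rarely hit by many coarse edges -/
theorem fixed_y {n T N : ℕ} (hT : 0 < T) (hN : n * T ≤ N) (A : DT (E D) Bool) {s0 L : ℕ}
    (hA : A.depth ≤ s0) (hL : 1 ≤ L) (hs : 2 * (D + 3) * s0 * L ≤ T ^ (D + 2))
    (t : ↥(box D n)) {y : Ch D} (hy : Yt n t.1 y) (j : ℕ) :
    pr (fun ω : Om D n T N =>
      2 * (D + 3) * (j + 1) ≤ (RH (mkR hT ω.1 ω.2.1) A y).card) ≤
      2 * (D + 3) * (3 / (L : ℝ) ^ j) := by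
  have : Nonempty (Fin T) := ⟨⟨0, hT⟩⟩
  -- base points
  have hctr : ∀ w : Fin (D + 3) → Fin T, ctr T t.1 w ∈ box D N := by
    intro w
    have h1 := Rst.cen_mem (mkR hT (fun _ => w : Asg D n T) 0) hN (v := t.1) t.2
    rw [cen_eq_ctr hT t.2] at h1
    exact h1
  choose x0 hx0 using fun w => exists_Yt (hctr w)
  -- union bound over the colours
  have h1 : pr (fun ω : Om D n T N =>
      2 * (D + 3) * (j + 1) ≤ (RH (mkR hT ω.1 ω.2.1) A y).card) ≤
      pr (fun ω : Om D n T N => ∃ c ∈ (univ : Finset (Fin (D + 3) × Bool)),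
        j ≤ nh' hT t.1 (A.reads ((mkR hT ω.1 ω.2.1).x y)).toFinset c ω.1) := by
    apply pr_mono
    intro ω hω
    by_contra hcon
    push Not at hcon
    have := card_RH_lt hT ω.1 ω.2.1 A y t.1 j fun c => hcon c (Finset.mem_univ _)
    omega
  refine h1.trans ((pr_exists_le _ fun c (ω : Om D n T N) =>
    j ≤ nh' hT t.1 (A.reads ((mkR hT ω.1 ω.2.1).x y)).toFinset c ω.1).trans ?_)
  have h2 : ∀ c : Fin (D + 3) × Bool, pr (fun ω : Om D n T N =>
      j ≤ nh' hT t.1 (A.reads ((mkR hT ω.1 ω.2.1).x y)).toFinset c ω.1) ≤ 3 / (L : ℝ) ^ j := by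
    intro c
    have hcA : (0 : ℝ) < Fintype.card (Asg D n T) := by exact_mod_cast Fintype.card_pos
    have hcZ : (0 : ℝ) < Fintype.card ↥(cyc D N) := by exact_mod_cast Fintype.card_pos
    rw [pr_eq_av]
    unfold av
    rw [Fintype.card_prod, Nat.cast_mul, Fintype.sum_prod_type]
    have h3 : ∀ a : Asg D n T, ∑ β : ↥(cyc D N),
        (if j ≤ nh' hT t.1 (A.reads ((mkR hT a β.1).x y)).toFinset c a then (1 : ℝ) else 0) =
        ∑ β : ↥(cyc D N), (if j ≤ nh' hT t.1 (A.reads (β.1 + x0 (a t))).toFinset c a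
          then (1 : ℝ) else 0) := by
      intro a
      rw [sum_coset (hx0 (a t)) (fun x => if j ≤ nh' hT t.1 (A.reads x).toFinset c a
        then (1 : ℝ) else 0)]
      exact sum_cyc hT hN t.2 a hy (fun x => if j ≤ nh' hT t.1 (A.reads x).toFinset c a
        then (1 : ℝ) else 0)
    rw [Finset.sum_congr rfl fun a _ => h3 a, Finset.sum_comm]
    have h4 : ∀ β : ↥(cyc D N), ∑ a : Asg D n T,
        (if j ≤ nh' hT t.1 (A.reads (β.1 + x0 (a t))).toFinset c a then (1 : ℝ) else 0) ≤
        3 / (L : ℝ) ^ j * Fintype.card (Asg D n T) := by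
      intro β
      have h5 := tail_nh' hT t (fun w => (A.reads (β.1 + x0 w)).toFinset) c hL (fun w => by
        have h6 : (A.reads (β.1 + x0 w)).toFinset.card ≤ s0 :=
          (List.toFinset_card_le _).trans ((A.length_reads _).trans hA)
        calc 2 * (D + 3) * (A.reads (β.1 + x0 w)).toFinset.card * L
            ≤ 2 * (D + 3) * s0 * L := by gcongr
          _ ≤ T ^ (D + 2) := hs) j
      rw [pr_eq_av] at h5
      unfold av at h5
      rwa [div_le_iff₀ hcA] at h5
    refine (div_le_div_of_nonneg_right (Finset.sum_le_sum fun β _ => h4 β)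
      (by positivity)).trans (le_of_eq ?_)
    rw [Finset.sum_const, Finset.card_univ, nsmul_eq_mul]
    field_simp
  refine (Finset.sum_le_sum fun c _ => h2 c).trans (le_of_eq ?_)
  rw [Finset.sum_const, Finset.card_univ, Fintype.card_prod, Fintype.card_fin,
    Fintype.card_bool, nsmul_eq_mul]
  push_cast
  ring

end FrG
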