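import Pool.Agent.Lib.MP_51bb46_lc.G.SampG

/-!
Decision tree gates (namespace `FrG`): for a fixed coarse assignment the run of a shallow decision
tree on the restricted assignment is hit by few coarse edges.
-/

set_option linter.unusedSectionVars false

namespace FrG

open Finset Fr56 FrS
open scoped Classical

variable {D : ℕ}

/-! ### the tail bound with a general base -/

theorem pr_eq_av {Ω : Type} [Fintype Ω] (P : Ω → Prop) [DecidablePred P] :
    pr P = av (fun a => if P a then (1 : ℝ) else 0) := by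
  unfold av
  rw [pr_eq P, Finset.sum_ite, Finset.sum_const_zero, add_zero, Finset.sum_const, nsmul_eq_mul,
    mul_one]

/-- exponential moment -/
theorem mgf_nhL {n T : ℕ} (hT : 0 < T) (κ : Finset (E D)) (c : Fin (D + 3) × Bool) {L : ℝ}
    (hL : 1 ≤ L) :
    av (fun a : Asg D n T => L ^ nh hT κ c a) ≤
      Real.exp (L * (2 * (D + 3) * κ.card / (T : ℝ) ^ (D + 2))) := by
  have : Nonempty (Fin T) := ⟨⟨0, hT⟩⟩
  set C : Finset (E D) := (edges D n).filter fun e => ecol e = c with hC
  let hfun : E D → Asg D n T → ℝ := fun e a => if Hit hT κ e a then L else 1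
  have e1 : ∀ a : Asg D n T, L ^ (nh hT κ c a) = ∏ e ∈ C, hfun e a := by
    intro a
    simp only [hfun]
    rw [Finset.prod_ite, Finset.prod_const, Finset.prod_const, one_pow, mul_one]
    rfl
  have e2 : av (fun a : Asg D n T => 1 * ∏ e ∈ C, hfun e a) =
      av (fun _ : Asg D n T => (1 : ℝ)) * ∏ e ∈ C, av (hfun e) := by
    apply av_prod_indep (evx n) hfun _ C _ ∅ _ (fun _ : Asg D n T => (1 : ℝ))
    · intro a b _
      rfl
    · intro e a b hab
      dsimp only [hfun]
      have := hit_congr hT κ (e := e) (a := a) (b := b) hab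
      by_cases h : Hit hT κ e a
      · rw [if_pos h, if_pos (this.1 h)]
      · rw [if_neg h, if_neg fun h' => h (this.2 h')]
    · intro e he f hf hne
      rw [hC, Finset.mem_filter] at he hf
      exact ecol_disj (he.2.trans hf.2.symm) hne
    · intro e _
      exact Finset.disjoint_empty_right _
  rw [av_const, one_mul] at e2
  have e4 : (fun a : Asg D n T => L ^ (nh hT κ c a)) =
      fun a : Asg D n T => 1 * ∏ e ∈ C, hfun e a := by
    funext a
    rw [e1 a, one_mul]
  rw [e4, e2]
  calc ∏ e ∈ C, av (hfun e)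
      ≤ ∏ e ∈ C, Real.exp (L * pr (fun a : Asg D n T => Hit hT κ e a)) := by
        apply Finset.prod_le_prod
        · intro e _
          apply av_nonneg
          intro a
          simp only [hfun]
          split_ifs <;> linarith
        · intro e _
          have e6 : av (fun a : Asg D n T => if Hit hT κ e a then (1 : ℝ) else 0) =
              pr (fun a : Asg D n T => Hit hT κ e a) := by
            unfold av pr
            rw [Finset.sum_ite, Finset.sum_const_zero, add_zero, Finset.sum_const, nsmul_eq_mul,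
              mul_one]
          have h8 : av (hfun e) =
              1 + (L - 1) * av (fun a : Asg D n T => if Hit hT κ e a then (1 : ℝ) else 0) := by
            rw [← av_const_mul]
            have := av_add (fun _ : Asg D n T => (1 : ℝ))
              (fun a : Asg D n T => (L - 1) * if Hit hT κ e a then (1 : ℝ) else 0)
            rw [av_const] at this
            rw [← this]
            congr 1
            funext a
            simp only [hfun]
            split_ifs <;> ring
          rw [h8, e6]
          have h5 := Real.add_one_le_exp (L * pr (fun a : Asg D n T => Hit hT κ e a))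
          have h6 := pr_nonneg (fun a : Asg D n T => Hit hT κ e a)
          nlinarith
    _ = Real.exp (∑ e ∈ C, L * pr (fun a : Asg D n T => Hit hT κ e a)) := by
        rw [Real.exp_sum]
    _ ≤ _ := by
        apply Real.exp_le_exp.2
        rw [← Finset.mul_sum]
        apply mul_le_mul_of_nonneg_left _ (by linarith)
        have h7 : ∑ e ∈ C, pr (fun a : Asg D n T => Hit hT κ e a) ≤
            ∑ e ∈ edges D n, pr (fun a : Asg D n T => Hit hT κ e a) :=
          Finset.sum_le_sum_of_subset_of_nonneg (Finset.filter_subset _ _)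
            (fun e _ _ => pr_nonneg _)
        exact h7.trans (sum_pr_hitE hT κ)

/-- tail bound -/
theorem tail_nhL {n T : ℕ} (hT : 0 < T) (κ : Finset (E D)) (c : Fin (D + 3) × Bool) {L : ℕ}
    (hL : 1 ≤ L) (hκ : 2 * (D + 3) * κ.card * L ≤ T ^ (D + 2)) (j : ℕ) :
    pr (fun a : Asg D n T => j ≤ nh hT κ c a) ≤ 3 / (L : ℝ) ^ j := by
  have hTpos : (0 : ℝ) < (T : ℝ) ^ (D + 2) := by positivity
  have hL1 : (1 : ℝ) ≤ L := by exact_mod_cast hL
  have h1 : (L : ℝ) * (2 * (D + 3) * κ.card / (T : ℝ) ^ (D + 2)) ≤ 1 := by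
    rw [← mul_div_assoc, div_le_one hTpos]
    have h : ((2 * (D + 3) * κ.card * L : ℕ) : ℝ) ≤ ((T ^ (D + 2) : ℕ) : ℝ) := by
      exact_mod_cast hκ
    push_cast at h
    linarith
  have h2 := mgf_nhL (n := n) hT κ c hL1
  have h3 : Real.exp (L * (2 * (D + 3) * κ.card / (T : ℝ) ^ (D + 2))) ≤ 3 := by
    calc Real.exp (L * (2 * (D + 3) * κ.card / (T : ℝ) ^ (D + 2))) ≤ Real.exp 1 :=
          Real.exp_le_exp.2 h1
      _ ≤ 3 := by
          have := Real.exp_one_lt_d9
          linarith
  have h4 : pr (fun a : Asg D n T => j ≤ nh hT κ c a) * (L : ℝ) ^ j ≤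
      av (fun a : Asg D n T => (L : ℝ) ^ nh hT κ c a) := by
    have e6 : av (fun a : Asg D n T => (if j ≤ nh hT κ c a then (1 : ℝ) else 0) * (L : ℝ) ^ j) =
        pr (fun a : Asg D n T => j ≤ nh hT κ c a) * (L : ℝ) ^ j := by
      rw [av_mul_const, pr_eq_av (fun a : Asg D n T => j ≤ nh hT κ c a)]
    rw [← e6]
    apply av_mono
    intro a
    by_cases h : j ≤ nh hT κ c a
    · rw [if_pos h, one_mul]
      exact pow_le_pow_right₀ hL1 h
    · rw [if_neg h, zero_mul]
      positivity
  rw [le_div_iff₀ (by positivity)]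
  linarith

/-! ### edges away from a vertex -/

/-- the number of coarse edges of colour `c`, not at `t`, that hit `κ` -/
noncomputable def nh' {n T : ℕ} (hT : 0 < T) (t : V D) (κ : Finset (E D))
    (c : Fin (D + 3) × Bool) (a : Asg D n T) : ℕ :=
  (((edges D n).filter fun e => ecol e = c ∧ e.1 ≠ t ∧ e.1 + ev e.2 ≠ t).filter
    fun e => Hit hT κ e a).card

theorem nh'_le {n T : ℕ} (hT : 0 < T) (t : V D) (κ : Finset (E D)) (c : Fin (D + 3) × Bool)
    (a : Asg D n T) : nh' hT t κ c a ≤ nh hT κ c a := by
  unfold nh' nh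
  apply Finset.card_le_card
  intro e he
  simp only [Finset.mem_filter] at he ⊢
  exact ⟨⟨he.1.1, he.1.2.1⟩, he.2⟩

theorem nh'_congr {n T : ℕ} (hT : 0 < T) (t : ↥(box D n)) (κ : Finset (E D))
    (c : Fin (D + 3) × Bool) {a b : Asg D n T} (h : ∀ v ∈ univ.erase t, a v = b v) :
    nh' hT t.1 κ c a = nh' hT t.1 κ c b := by
  unfold nh'
  congr 1
  apply Finset.filter_congr
  intro e he
  rw [Finset.mem_filter] at he
  obtain ⟨_, _, h1, h2⟩ := he
  apply hit_congr hT κ
  intro v hv
  apply h
  rw [Finset.mem_erase]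
  refine ⟨?_, Finset.mem_univ _⟩
  rintro rfl
  unfold evx at hv
  rcases (Finset.mem_filter.1 hv).2 with h3 | h3
  · exact h1 h3.symm
  · exact h2 h3.symm

/-- the tail bound when the set `κ` may depend on the position at `t` -/
theorem tail_nh' {n T : ℕ} (hT : 0 < T) (t : ↥(box D n))
    (κ : (Fin (D + 3) → Fin T) → Finset (E D)) (c : Fin (D + 3) × Bool) {L : ℕ}
    (hL : 1 ≤ L) (hκ : ∀ w, 2 * (D + 3) * (κ w).card * L ≤ T ^ (D + 2)) (j : ℕ) :
    pr (fun a : Asg D n T => j ≤ nh' hT t.1 (κ (a t)) c a) ≤ 3 / (L : ℝ) ^ j := by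
  have : Nonempty (Fin T) := ⟨⟨0, hT⟩⟩
  rw [pr_eq_av]
  have e1 : (fun a : Asg D n T => if j ≤ nh' hT t.1 (κ (a t)) c a then (1 : ℝ) else 0) =
      fun a => ∑ w : Fin (D + 3) → Fin T, (if a t = w then (1 : ℝ) else 0) *
        (if j ≤ nh' hT t.1 (κ w) c a then (1 : ℝ) else 0) := by
    funext a
    rw [Finset.sum_eq_single (a t)]
    · rw [if_pos rfl, one_mul]
    · intro w _ hw
      rw [if_neg fun h => hw h.symm, zero_mul]
    · intro h
      exact absurd (Finset.mem_univ _) h
  rw [e1, av_sum]
  have e2 : ∀ w : Fin (D + 3) → Fin T,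
      av (fun a : Asg D n T => (if a t = w then (1 : ℝ) else 0) *
        (if j ≤ nh' hT t.1 (κ w) c a then (1 : ℝ) else 0)) ≤
      av (fun a : Asg D n T => if a t = w then (1 : ℝ) else 0) * (3 / (L : ℝ) ^ j) := by
    intro w
    rw [av_indep (S := {t}) (T := univ.erase t)]
    · apply mul_le_mul_of_nonneg_left
      · rw [← pr_eq_av]
        refine (pr_mono fun a ha => ?_).trans (tail_nhL (n := n) hT (κ w) c hL (hκ w) j)
        exact le_trans ha (nh'_le hT t.1 (κ w) c a)
      · apply av_nonneg
        intro a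
        split_ifs <;> norm_num
    · rw [Finset.disjoint_singleton_left]
      exact Finset.notMem_erase _ _
    · intro a b hab
      dsimp only
      rw [hab t (Finset.mem_singleton_self _)]
    · intro a b hab
      dsimp only
      rw [nh'_congr hT t (κ w) c hab]
  refine (Finset.sum_le_sum fun w _ => e2 w).trans ?_
  rw [← Finset.sum_mul, ← av_sum]
  have e3 : (fun a : Asg D n T => ∑ w : Fin (D + 3) → Fin T, if a t = w then (1 : ℝ) else 0) =
      fun _ => 1 := by
    funext a
    rw [Finset.sum_ite_eq]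
    rw [if_pos (Finset.mem_univ _)]
  rw [e3, av_const, one_mul]

end FrG
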