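import Pool.Agent.Lib.MP_51bb46_lc.S.Reloc
import Pool.Agent.Lib.MP_51bb46_lc.G.Defs
import Pool.Agent.Lib.MP_51bb46_lc.C.Switch3
import Pool.Agent.Lib.MP_51bb46_lc.C.Depth

section

/-!
Local gates (namespace `FrG`): derivations from a set of axioms.
-/

set_option linter.unusedSectionVars false

namespace FrG

open Finset Fr56 FrC
open scoped Classical

/-- there is no refutation all of whose formulas can be made quiet -/
theorem sem_no_refutation {X J Y : Type} (S : Sem X J Y) (R : List Rule) (hR : ∀ r ∈ R, r.Sound)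
    (Ax : Set (Fm X)) (b : Fm ℕ) (hb : b.Unsat) (τ : ℕ → X) (π : List (Fm X))
    (hF : ∀ F ∈ Ax, F ∈ π → S.True' F)
    (hπ : Derives R Ax π) (hlast : b.map τ ∈ π)
    (hgood : ∀ A ∈ π, ∀ B ∈ A.subs, B ∈ S.good)
    (hcap : ∀ r ∈ R, (r.nodes + 1) * S.w ≤ S.cap) (hcap' : (b.size + 1) * S.w ≤ S.cap) : False := by
  have key : ∀ i (hi : i < π.length), S.True' π[i] := by
    intro i
    induction i using Nat.strong_induction_on with
    | _ i ih =>
      intro hi
      rcases hπ i hi with h | ⟨r, hr, σ, hσ, hhyps⟩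
      · exact hF _ h (List.getElem_mem hi)
      · rw [hσ]
        refine S.rule_sound r (hR r hr) σ (hcap r hr) ?_ ?_
        · intro A hA B hB
          rcases List.mem_cons.1 hA with rfl | hA
          · exact hgood _ (List.getElem_mem hi) _ (by rw [hσ]; exact subst_mem_subs hB σ)
          · obtain ⟨j, hj, hjA⟩ := hhyps A hA
            exact hgood _ (List.getElem_mem (hj.trans hi)) _
              (by rw [hjA]; exact subst_mem_subs hB σ)
        · intro A hA
          obtain ⟨j, hj, hjA⟩ := hhyps A hA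
          rw [← hjA]
          exact ih j hj (hj.trans hi)
  obtain ⟨i, hi, hib⟩ := List.getElem_of_mem hlast
  have h1 := key i hi
  rw [hib, map_eq_subst] at h1
  refine S.not_true_of_unsat b hb (fun v => .var (τ v)) hcap' ?_ h1
  intro B hB
  refine hgood _ hlast _ ?_
  rw [map_eq_subst]
  exact subst_mem_subs hB _

/-- there is no refutation all of whose formulas are decided by a valuation -/
theorem valn_no_refutation {V E : Type} [Fintype E] [DecidableEq V] {G : Gph V E} {Fr : Frame G}
    {v0 : V} {X : Type} {Φ : Set (Fm X)} {cap : ℕ} (S : Valn Fr v0 X Φ cap) (hcap : cap ≤ Fr.m)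
    (h0 : Fr.Free ∅ v0)
    (k C : ℕ) (hD : S.Dcds k) (hC : C * k ≤ cap) (R : List Rule) (hR : ∀ r ∈ R, r.Sound)
    (hRC : ∀ r ∈ R, r.nodes + 1 ≤ C) (Ax : Set (Fm X))
    (b : Fm ℕ) (hb : b.Unsat)
    (hbC : b.size + 1 ≤ C) (τ : ℕ → X) (π : List (Fm X)) (hF : ∀ F ∈ Ax, F ∈ π → S.True' k F)
    (hπ : Derives R Ax π)
    (hlast : b.map τ ∈ π) (hΦ : ∀ A ∈ π, ∀ B ∈ A.subs, B ∈ Φ) : False := by
  have hle : ∀ c, c ≤ C → c * k ≤ cap := fun c hc => (Nat.mul_le_mul_right k hc).trans hC
  exact sem_no_refutation (S.toSem hcap h0 k hD) R hR Ax b hb τ π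
    (fun F h1 h2 => S.toSem_true hcap h0 k hD (hF F h1 h2)) hπ
    hlast hΦ (fun r hr => hle _ (hRC r hr)) (hle _ hbC)

end FrG
end

section

/-!
Local gates (namespace `FrG`): alternation depth and rank over a general class of base formulas.
-/

set_option linter.unusedSectionVars false

namespace FrG

open Finset Fr56 FrC
open scoped Classical

section
variable {X Y : Type}

/-- a class of formulas that contains the variables and is closed under negation and
subformulas -/
structure Bas (B : Fm X → Prop) : Prop where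
  var : ∀ v, B (.var v)
  neg : ∀ f, B f.neg ↔ B f
  and : ∀ f g, B (f.and g) → B f ∧ B g
  or : ∀ f g, B (f.or g) → B f ∧ B g

/-- alternation depth over base formulas -/
noncomputable def rk (B : Fm X → Prop) : Fm X → Bool → ℕ
  | .var _, _ => 0
  | .neg f, b => rk B f (!b)
  | .or f g, b => if B (f.or g) then 0
      else max 1 (max (rk B f true) (rk B g true)) + (if b then 0 else 1)
  | .and f g, b => if B (f.and g) then 0
      else max 1 (max (rk B f false) (rk B g false)) + (if b then 1 else 0)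

/-- rank of a formula -/
noncomputable def lev (B : Fm X → Prop) (f : Fm X) : ℕ := min (rk B f true) (rk B f false)

variable {B : Fm X → Prop}

theorem rk_small (hB : Bas B) (f : Fm X) (hf : B f) (b : Bool) : rk B f b = 0 := by
  induction f generalizing b with
  | var v => rfl
  | neg f ih => exact ih ((hB.neg f).1 hf) (!b)
  | and f g _ _ => simp only [rk, if_pos hf]
  | or f g _ _ => simp only [rk, if_pos hf]

theorem rank_neg (f : Fm X) : lev B f.neg = lev B f := by
  show min (rk B f (!true)) (rk B f (!false)) = min (rk B f true) (rk B f false)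
  rw [min_comm]
  rfl

theorem rank_small (hB : Bas B) (f : Fm X) (hf : B f) : lev B f = 0 := by
  unfold lev
  rw [rk_small hB f hf, rk_small hB f hf]
  rfl

/-- the formulas of rank `0` are the base formulas -/
theorem lev_eq_zero_iff (hB : Bas B) (f : Fm X) : lev B f = 0 ↔ B f := by
  refine ⟨fun h => ?_, rank_small hB f⟩
  by_contra hcon
  have key : ∀ (f : Fm X), ¬ B f → ∀ b, 1 ≤ rk B f b := by
    intro f
    induction f with
    | var v => intro h; exact absurd (hB.var v) h
    | neg f ih => intro h b; exact ih (fun h' => h ((hB.neg f).2 h')) (!b)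
    | and f g _ _ =>
      intro h b
      simp only [rk, if_neg h]
      omega
    | or f g _ _ =>
      intro h b
      simp only [rk, if_neg h]
      omega
  have h1 := key f hcon true
  have h2 := key f hcon false
  unfold lev at h
  omega

theorem rank_or (f g : Fm X) (h : ¬ B (f.or g)) :
    lev B (f.or g) = max 1 (max (rk B f true) (rk B g true)) := by
  simp only [lev, rk, if_neg h, if_true, Bool.false_eq_true, if_false]
  omega

theorem rank_and (f g : Fm X) (h : ¬ B (f.and g)) :
    lev B (f.and g) = max 1 (max (rk B f false) (rk B g false)) := by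
  simp only [lev, rk, if_neg h, if_true, Bool.false_eq_true, if_false]
  omega

theorem rk_sgn (hB : Bas B) (f : Fm X) : rk B f (sgn f) = lev B f := by
  induction f with
  | var v => rfl
  | neg f ih =>
    rw [rank_neg, ← ih]
    show rk B f (!(!(sgn f))) = rk B f (sgn f)
    rw [Bool.not_not]
  | and f g _ _ =>
    show rk B (f.and g) false = lev B (f.and g)
    by_cases h : B (f.and g)
    · rw [rank_small hB (f.and g) h, rk_small hB (f.and g) h]
    · rw [rank_and f g h]
      simp only [rk, if_neg h, Bool.false_eq_true, if_false, add_zero]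
  | or f g _ _ =>
    show rk B (f.or g) true = lev B (f.or g)
    by_cases h : B (f.or g)
    · rw [rank_small hB (f.or g) h, rk_small hB (f.or g) h]
    · rw [rank_or f g h]
      simp only [rk, if_neg h, if_true, add_zero]

theorem rk_not_sgn (hB : Bas B) (f : Fm X) (hf : lev B f ≠ 0) :
    rk B f (!(sgn f)) = lev B f + 1 := by
  induction f with
  | var v => exact absurd rfl hf
  | neg f ih =>
    rw [rank_neg] at hf ⊢
    show rk B f (!(!(!(sgn f)))) = lev B f + 1
    rw [Bool.not_not]
    exact ih hf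
  | and f g _ _ =>
    show rk B (f.and g) true = lev B (f.and g) + 1
    by_cases h : B (f.and g)
    · exact absurd (rank_small hB (f.and g) h) hf
    · rw [rank_and f g h]
      simp only [rk, if_neg h, if_true]
  | or f g _ _ =>
    show rk B (f.or g) false = lev B (f.or g) + 1
    by_cases h : B (f.or g)
    · exact absurd (rank_small hB (f.or g) h) hf
    · rw [rank_or f g h]
      simp only [rk, if_neg h, Bool.false_eq_true, if_false]

theorem rank_le (f : Fm X) (b : Bool) : lev B f ≤ rk B f b := by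
  cases b
  · exact min_le_right _ _
  · exact min_le_left _ _

theorem lev_subs (hB : Bas B) (f g : Fm X) (h : f ∈ g.subs) : lev B f ≤ lev B g := by
  induction g with
  | var v =>
    simp only [Fm.subs, List.mem_singleton] at h
    rw [h]
  | neg g ih =>
    simp only [Fm.subs, List.mem_cons] at h
    rcases h with rfl | h
    · exact le_rfl
    · rw [rank_neg]; exact ih h
  | and g h' ih1 ih2 =>
    simp only [Fm.subs, List.mem_cons, List.mem_append] at h
    by_cases hs : B (g.and h')
    · obtain ⟨hs1, hs2⟩ := hB.and g h' hs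
      rcases h with rfl | h | h
      · exact le_rfl
      · have h1 := ih1 h
        rw [rank_small hB g hs1] at h1
        omega
      · have h1 := ih2 h
        rw [rank_small hB h' hs2] at h1
        omega
    · rcases h with rfl | h | h
      · exact le_rfl
      · have h1 := ih1 h
        have h2 := rank_le (B := B) g false
        rw [rank_and g h' hs]
        omega
      · have h1 := ih2 h
        have h2 := rank_le (B := B) h' false
        rw [rank_and g h' hs]
        omega
  | or g h' ih1 ih2 =>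
    simp only [Fm.subs, List.mem_cons, List.mem_append] at h
    by_cases hs : B (g.or h')
    · obtain ⟨hs1, hs2⟩ := hB.or g h' hs
      rcases h with rfl | h | h
      · exact le_rfl
      · have h1 := ih1 h
        rw [rank_small hB g hs1] at h1
        omega
      · have h1 := ih2 h
        rw [rank_small hB h' hs2] at h1
        omega
    · rcases h with rfl | h | h
      · exact le_rfl
      · have h1 := ih1 h
        have h2 := rank_le (B := B) g true
        rw [rank_or g h' hs]
        omega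
      · have h1 := ih2 h
        have h2 := rank_le (B := B) h' true
        rw [rank_or g h' hs]
        omega

/-- the child of a new formula has the type of the formula or is old -/
theorem rank_child (hB : Bas B) (i : ℕ) (f : Fm X) (b : Bool) (h1 : rk B f b ≤ i + 1)
    (h2 : ¬ lev B f ≤ i) : sgn f = b := by
  by_contra hcon
  have h3 : b = !(sgn f) := by
    cases b <;> cases hs : sgn f <;> simp_all
  have h4 := rk_not_sgn hB f (by omega)
  rw [← h3] at h4
  omega

/-- each rank gives a new class over the previous one -/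
theorem newCls (hB : Bas B) (Fs : Finset (Fm X)) (hFs : ∀ f ∈ Fs, ∀ g ∈ f.subs, g ∈ Fs)
    (i : ℕ) : NewCls {f | f ∈ Fs ∧ lev B f ≤ i} {f | f ∈ Fs ∧ lev B f ≤ i + 1} := by
  have mneg : ∀ f : Fm X, f ∈ f.neg.subs := fun f => by
    simp only [Fm.subs, List.mem_cons]; exact Or.inr (Fm.self_mem_subs _)
  have mor1 : ∀ f g : Fm X, f ∈ (f.or g).subs := fun f g => by
    simp only [Fm.subs, List.mem_cons, List.mem_append]
    exact Or.inr (Or.inl (Fm.self_mem_subs _))
  have mor2 : ∀ f g : Fm X, g ∈ (f.or g).subs := fun f g => by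
    simp only [Fm.subs, List.mem_cons, List.mem_append]
    exact Or.inr (Or.inr (Fm.self_mem_subs _))
  have mand1 : ∀ f g : Fm X, f ∈ (f.and g).subs := fun f g => by
    simp only [Fm.subs, List.mem_cons, List.mem_append]
    exact Or.inr (Or.inl (Fm.self_mem_subs _))
  have mand2 : ∀ f g : Fm X, g ∈ (f.and g).subs := fun f g => by
    simp only [Fm.subs, List.mem_cons, List.mem_append]
    exact Or.inr (Or.inr (Fm.self_mem_subs _))
  refine ⟨?_, ?_, ?_, ?_, ?_, ?_, ?_⟩
  · rintro f ⟨h1, h2⟩
    exact ⟨h1, h2.trans (Nat.le_succ i)⟩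
  · rintro f ⟨h1, _⟩
    constructor
    · rintro ⟨_, h2⟩
      refine ⟨hFs _ h1 _ (mneg f), ?_⟩
      rw [← rank_neg]
      exact h2
    · rintro ⟨_, h2⟩
      refine ⟨h1, ?_⟩
      rw [rank_neg]
      exact h2
  · rintro x ⟨h1, _⟩
    exact ⟨h1, Nat.zero_le i⟩
  · rintro f g ⟨h1, h2⟩
    exact ⟨⟨hFs _ h1 _ (mor1 f g), (lev_subs hB _ _ (mor1 f g)).trans h2⟩,
      ⟨hFs _ h1 _ (mor2 f g), (lev_subs hB _ _ (mor2 f g)).trans h2⟩⟩
  · rintro f g ⟨h1, h2⟩
    exact ⟨⟨hFs _ h1 _ (mand1 f g), (lev_subs hB _ _ (mand1 f g)).trans h2⟩,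
      ⟨hFs _ h1 _ (mand2 f g), (lev_subs hB _ _ (mand2 f g)).trans h2⟩⟩
  · rintro f g ⟨h1, h2⟩ h3
    have h4 : ¬ lev B (f.or g) ≤ i := fun h => h3 ⟨h1, h⟩
    have h5 : ¬ B (f.or g) := by
      intro h
      have := rank_small hB (f.or g) h
      omega
    rw [rank_or f g h5] at h2 h4
    constructor
    · by_cases hf : lev B f ≤ i
      · exact Or.inl ⟨hFs _ h1 _ (mor1 f g), hf⟩
      · exact Or.inr (rank_child hB i f true (by omega) hf)
    · by_cases hg : lev B g ≤ i
      · exact Or.inl ⟨hFs _ h1 _ (mor2 f g), hg⟩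
      · exact Or.inr (rank_child hB i g true (by omega) hg)
  · rintro f g ⟨h1, h2⟩ h3
    have h4 : ¬ lev B (f.and g) ≤ i := fun h => h3 ⟨h1, h⟩
    have h5 : ¬ B (f.and g) := by
      intro h
      have := rank_small hB (f.and g) h
      omega
    rw [rank_and f g h5] at h2 h4
    constructor
    · by_cases hf : lev B f ≤ i
      · exact Or.inl ⟨hFs _ h1 _ (mand1 f g), hf⟩
      · exact Or.inr (rank_child hB i f false (by omega) hf)
    · by_cases hg : lev B g ≤ i
      · exact Or.inl ⟨hFs _ h1 _ (mand2 f g), hg⟩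
      · exact Or.inr (rank_child hB i g false (by omega) hg)

/-- substituting base formulas into a formula of small depth -/
theorem rk_subst (hB : Bas B) (F : Fm Y) (σ : Y → Fm X) (hσ : ∀ v, B (σ v)) (b : Bool) :
    rk B (F.subst σ) b ≤ alt F b := by
  induction F generalizing b with
  | var v =>
    show rk B (σ v) b ≤ _
    rw [rk_small hB _ (hσ v)]
    exact Nat.zero_le _
  | neg f ih => exact ih (!b)
  | and f g ih1 ih2 =>
    show rk B ((f.subst σ).and (g.subst σ)) b ≤ alt (f.and g) b
    have h1 := ih1 false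
    have h2 := ih2 false
    simp only [rk, alt]
    split_ifs <;> omega
  | or f g ih1 ih2 =>
    show rk B ((f.subst σ).or (g.subst σ)) b ≤ alt (f.or g) b
    have h1 := ih1 true
    have h2 := ih2 true
    simp only [rk, alt]
    split_ifs <;> omega

theorem lev_subst (hB : Bas B) (F : Fm Y) (σ : Y → Fm X) (hσ : ∀ v, B (σ v)) :
    lev B (F.subst σ) ≤ depth F := by
  have h1 := rk_subst hB F σ hσ true
  have h2 := rk_subst hB F σ hσ false
  unfold lev depth
  omega

end

end FrG
end

section

/-!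
Local gates (namespace `FrG`): iterating the switching step over a general class of base formulas,
with many axioms.
-/

set_option linter.unusedSectionVars false

namespace FrG

open Finset Fr56 FrC
open scoped Classical

/-- iterated conjunctions of formulas with the property `P` -/
inductive AndOf {X : Type} (P : Fm X → Prop) : Fm X → Prop
  | base (f : Fm X) (h : P f) : AndOf P f
  | and (f g : Fm X) (hf : AndOf P f) (hg : AndOf P g) : AndOf P (f.and g)

theorem AndOf.mono {X : Type} {P Q : Fm X → Prop} {F : Fm X} (h : AndOf P F)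
    (hPQ : ∀ f ∈ F.subs, P f → Q f) : AndOf Q F := by
  induction h with
  | base f h => exact AndOf.base f (hPQ f (Fm.self_mem_subs f) h)
  | and f g _ _ ihf ihg =>
    refine AndOf.and f g (ihf fun f' hf' => hPQ f' ?_) (ihg fun f' hf' => hPQ f' ?_)
    · simp only [Fm.subs, List.mem_cons, List.mem_append]
      exact Or.inr (Or.inl hf')
    · simp only [Fm.subs, List.mem_cons, List.mem_append]
      exact Or.inr (Or.inr hf')

/-- `Kills Fr v0 j kk k`: given a valuation on `Fr` that decides all formulas of rank at most `i0` of a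
family of at most `2^k` formulas by revealing `kk` vertices, there is no refutation (by rules of
size less than `k`) whose lines are formulas of the family of rank at most `i0 + j`.  The axioms
are conjunctions of locally true formulas. -/
def Kills {V E : Type} [Fintype E] [DecidableEq V] {G : Gph V E} (Fr : Frame G) (v0 : V)
    (j kk k : ℕ) : Prop :=
  ∀ (X : Type) (B : Fm X → Prop) (Fs : Finset (Fm X)) (i0 cap : ℕ)
    (S : Valn Fr v0 X {f | f ∈ Fs ∧ lev B f ≤ i0} cap),
    Bas B → (∀ f ∈ Fs, ∀ g ∈ f.subs, g ∈ Fs) → Fs.card ≤ 2 ^ k → k * kk ≤ cap → cap ≤ Fr.m →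
    S.Dcds kk → ∀ R : List Rule, (∀ r ∈ R, r.Sound) → (∀ r ∈ R, r.nodes + 1 ≤ k) →
    ∀ Ax : Set (Fm X), (∀ F ∈ Ax, F ∈ Fs → AndOf (fun f => lev B f ≤ i0 ∧ S.True' kk f) F) →
    ∀ b : Fm ℕ, b.Unsat → b.size + 1 ≤ k →
    ∀ (τ : ℕ → X) (π : List (Fm X)), Derives R Ax π → b.map τ ∈ π →
    (∀ A ∈ π, A ∈ Fs ∧ lev B A ≤ i0 + j) → False

theorem kills_zero {V E : Type} [Fintype E] [DecidableEq V] {G : Gph V E} (Fr : Frame G) (v0 : V)
    (h0 : Fr.Free ∅ v0) (kk k : ℕ) (hk : 4 ≤ k) : Kills Fr v0 0 kk k := by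
  intro X B Fs i0 cap S hB hcl _ hkk hcapm hD R hR hRC Ax hAx b hb hbC τ π hπ hlast hall
  have hC4 : 4 * kk ≤ cap := (Nat.mul_le_mul_right kk hk).trans hkk
  have key : ∀ F : Fm X, AndOf (fun f => lev B f ≤ i0 ∧ S.True' kk f) F → F ∈ Fs →
      lev B F ≤ i0 → S.True' kk F := by
    intro F hF
    induction hF with
    | base f h => exact fun _ _ => h.2
    | and f g _ _ ihf ihg =>
      intro h1 h2
      have m1 : f ∈ (Fm.and f g).subs := by
        simp only [Fm.subs, List.mem_cons, List.mem_append]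
        exact Or.inr (Or.inl (Fm.self_mem_subs _))
      have m2 : g ∈ (Fm.and f g).subs := by
        simp only [Fm.subs, List.mem_cons, List.mem_append]
        exact Or.inr (Or.inr (Fm.self_mem_subs _))
      have l1 := (lev_subs hB _ _ m1).trans h2
      have l2 := (lev_subs hB _ _ m2).trans h2
      exact S.and_true hcapm h0 kk hD hC4 f g ⟨hcl _ h1 _ m1, l1⟩ ⟨hcl _ h1 _ m2, l2⟩ ⟨h1, h2⟩
        (ihf (hcl _ h1 _ m1) l1) (ihg (hcl _ h1 _ m2) l2)
  exact valn_no_refutation S hcapm h0 kk k hD hkk R hR hRC Ax b hb hbC τ π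
    (fun F h1 h2 => key F (hAx F h1 (hall F h2).1) (hall F h2).1 (hall F h2).2) hπ hlast
    (fun A hA C hC => ⟨hcl A (hall A hA).1 C hC, (lev_subs hB C A hC).trans (hall A hA).2⟩)

section
variable {V E : Type} [Fintype V] [Fintype E] [DecidableEq V] [DecidableEq E]
  {G : Gph V E} (Fr : Frame G) (v0 : V)

/-- **the switching step** -/
theorem kills_succ {j kk kk' k Q D Δ R : ℕ} (hkill : Kills Fr v0 j kk k) (hl : G.NoLoop)
    (hdeg : G.Deg Δ) (hQ0 : 0 < Q) (hD : 0 < D) (w0 : A D) (hk : 3 ≤ k) (hR : 0 < R)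
    (θ : ℝ) (hθ0 : 0 ≤ θ) (hθ1 : θ ≤ 1) (hθ : (kk' : ℝ) ≤ θ ^ (2 * (Δ + 2)) * 2 ^ D)
    (hQ : (Δ + 2) * kk' ≤ Q)
    (hm : 2 * (1 + Δ) * ((R + (Δ + 2) * kk') + (R + (Δ + 2) * kk') * kk') ≤ Fr.m)
    (hX : (Fintype.card (TE V E Q) : ℝ) * ((Fintype.card (FI E Q) : ℝ) + 1) *
      (2 * (2 ^ (2 * Δ * (1 + Δ)) * θ)) ≤ 1 / 3)
    (hcard : 2 ^ k * (2 * Fintype.card V) < 2 ^ R) (hK1 : 2 * (1 + Δ) * R ≤ kk)
    (hK2 : 2 * (Δ + 2) * kk' ≤ kk) (hcap : k * kk + (2 * Δ + 10) * kk' ≤ Fr.m) :
    Kills (Fr.blow Q D hQ0 hD) (HV.cen (v0, 0) w0) (j + 1) kk' k := by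
  intro X B Fs i0 cap' S' hB hcl hFc hkk hcapm hD' R₀ hR₀ hRC Ax hAx b hb hbC τ π hπ hlast
    hall
  have h3 : 3 * kk' ≤ cap' := (Nat.mul_le_mul_right kk' hk).trans hkk
  set 𝒮 : Finset (Set (Cert V E Q D)) :=
    Fs.image (fun f => certs S' kk' (lst {f | f ∈ Fs ∧ lev B f ≤ i0} f)) with h𝒮def
  have h𝒮 : ∀ 𝒞 ∈ 𝒮, ∀ C ∈ 𝒞, C.1.card ≤ kk' := by
    intro 𝒞 h𝒞 C hC
    rw [h𝒮def, Finset.mem_image] at h𝒞
    obtain ⟨f, _, rfl⟩ := h𝒞
    exact certs_card S' kk' _ C hC
  have hc1 : 𝒮.card * (2 * Fintype.card V) < 2 ^ R := by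
    refine lt_of_le_of_lt (Nat.mul_le_mul_right _ ?_) hcard
    exact Finset.card_image_le.trans hFc
  obtain ⟨α, a, hα, hno⟩ := exists_noLong Fr v0 hl hD hQ0 hdeg kk' R (R + (Δ + 2) * kk') θ hθ0 hθ1
    hθ w0 𝒮 h𝒮 hQ hm hX hc1
  obtain ⟨S, hSD, hST⟩ := switch_logic S' (newCls hB Fs hcl i0) hdeg h3 hR
    (le_trans (Nat.mul_le_mul_left _ (Nat.le_add_right _ _)) hm) hα
    (fun f hf _ => hno _ (by rw [h𝒮def]; exact Finset.mem_image_of_mem _ hf.1)) hD' hK1 hK2 hcap
  have hkk1 : kk ≤ k * kk := Nat.le_mul_of_pos_left kk (by omega)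
  have hkk2 : 2 * kk' ≤ (2 * Δ + 10) * kk' := Nat.mul_le_mul_right kk' (by omega)
  refine hkill X B Fs (i0 + 1) (k * kk) S hB hcl hFc le_rfl (by omega) hSD R₀ hR₀ hRC Ax
    (fun F hF hFs => ?_) b hb hbC τ π hπ hlast ?_
  · refine (hAx F hF hFs).mono fun f hf h => ?_
    obtain ⟨h1, h2⟩ := h
    exact ⟨by omega, hST f ⟨hcl F hFs f hf, h1⟩ kk (by omega) h2⟩
  · intro A hA
    obtain ⟨h1, h2⟩ := hall A hA
    exact ⟨h1, by omega⟩

end

end FrG
end
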