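import Pool.Agent.Lib.MP_51bb46_lc.G.KillsG
import Pool.Agent.Lib.MP_51bb46_lc.C.Towers

/-!
Local gates (namespace `FrG`): graphs for the iterated switching step.
-/

set_option linter.unusedSectionVars false

namespace FrG

open Finset Fr56 FrC
open scoped Classical

/-- **graphs for the iterated switching step** -/
theorem towers (j : ℕ) : ∀ A B : ℕ, ∃ a k0 : ℕ, ∀ k ≥ k0, ∃ (V E : Type) (_ : Fintype V)
    (_ : Fintype E) (_ : DecidableEq V) (_ : DecidableEq E) (G : Gph V E) (Fr : Frame G) (v0 : V),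
    G.NoLoop ∧ G.Deg (dg j) ∧ Fr.Free ∅ v0 ∧ Fintype.card V ≤ (k + 2) ^ a ∧
    Fintype.card E ≤ (k + 2) ^ a ∧ B * k ^ 2 ≤ Fr.m ∧ FrG.Kills Fr v0 j (A * k) k := by
  induction j with
  | zero =>
    intro A B
    refine ⟨(B + 2 + 1 + 1) + (B + 2 + 1 + 1) + 1, 4, fun k hk => ?_⟩
    have hx : 2 ≤ k + 2 := by omega
    have e1 : 2 ≤ (k + 2) ^ 1 := by rw [pow_one]; exact hx
    have e2 : k ^ 2 ≤ (k + 2) ^ 2 := Nat.pow_le_pow_left (by omega) 2
    have e3 : B * k ^ 2 ≤ (k + 2) ^ (B + 2) := tw_mul (tw_const B _ hx) e2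
    have hM := tw_add hx e3 e1
    obtain ⟨M, hMd⟩ : ∃ M, M = B * k ^ 2 + 2 := ⟨_, rfl⟩
    rw [← hMd] at hM
    have : NeZero M := ⟨by omega⟩
    have hfree : tFree (∅ : Finset (JJ M)) ((0, 0) : JJ M) := Or.inl (by simp)
    refine ⟨JJ M, JJ M × Bool, inferInstance, inferInstance, inferInstance, inferInstance,
      torus M, torusFrame M, (0, 0), noLoop_torus (by omega), deg_torus, hfree, ?_, ?_, ?_,
      FrG.kills_zero _ _ hfree _ _ hk⟩
    · rw [show Fintype.card (JJ M) = M * M by simp [JJ]]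
      exact tw_mono hx (tw_mul hM hM) (by omega)
    · rw [show Fintype.card (JJ M × Bool) = M * M * 2 by simp [JJ]]
      exact tw_mono hx (tw_mul (tw_mul hM hM) e1) (by omega)
    · show B * k ^ 2 ≤ M - 1
      omega
  | succ j ih =>
    intro A B
    set Δ := dg j with hΔ
    obtain ⟨a1, k01, h1⟩ := ih (6 * (1 + Δ) + 2 * (Δ + 2) * A)
      (2 * B + 2 * (1 + Δ) * ((3 + (Δ + 2) * A) * (1 + A)) +
        (6 * (1 + Δ) + 2 * (Δ + 2) * A) + (2 * Δ + 10) * A)
    obtain ⟨a, n, hstep⟩ := tw_step a1 A Δ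
    obtain ⟨K, hK⟩ := tw_exp a1
    refine ⟨a, k01 + K + 3, fun k hk => ?_⟩
    obtain ⟨V, E, iV, iE, dV, dE, G, Fr, v0, hnl, hdeg, hfree, hcV, hcE, hm, hkill⟩ :=
      h1 k (by omega)
    obtain ⟨Q, hQ⟩ : ∃ Q, Q = (Δ + 2) * A * k + 1 := ⟨_, rfl⟩
    obtain ⟨Z, hZ⟩ : ∃ Z, Z = 6 * Fintype.card (TE V E Q) * (Fintype.card (FI E Q) + 1) *
      2 ^ (2 * Δ * (1 + Δ)) + 1 := ⟨_, rfl⟩
    obtain ⟨D, hD⟩ : ∃ D, D = (n + 1) * (Nat.log 2 (k + 2) + 1) := ⟨_, rfl⟩
    obtain ⟨hD0, hN, hcV', hcE'⟩ := hstep k _ _ Q _ _ Z D hcV hcE hQ (card_TE' Q) (card_FI' Q) hZ hD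
    have hQ0 : 0 < Q := by omega
    refine ⟨HV (TV V Q) (TE V E Q) D, Xt (TE V E Q) D, inferInstance, inferInstance,
      inferInstance, inferInstance, (G.tall Q).blow D, Fr.blow Q D hQ0 hD0, HV.cen (v0, 0) 0,
      noLoop_blow _ hD0 (noLoop_tall G hnl), ?_, ?_, ?_, ?_, ?_, ?_⟩
    · exact deg_blow (G.tall Q) (noLoop_tall G hnl) (by omega) (deg_tall G hdeg)
    · exact bFree_cen Fr Q D 0 (by simpa [Unc] using hfree)
    · rw [card_HV, card_TV]; exact hcV'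
    · rw [card_Xt]; exact hcE'
    · have h2 : B * k ^ 2 * 2 ≤ Fr.m := by
        refine le_trans ?_ hm
        have : B * k ^ 2 * 2 = 2 * B * k ^ 2 := by ring
        rw [this]
        exact Nat.mul_le_mul_right _ (by omega)
      show B * k ^ 2 ≤ Fr.m / 2
      omega
    · have hk3 : 3 ≤ k := by omega
      have hk1 : 1 ≤ k := by omega
      have hkk : k ≤ k ^ 2 := by nlinarith
      have hZ1 : (1 : ℝ) ≤ Z := by
        have : 1 ≤ Z := by omega
        exact_mod_cast this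
      have hZ0 : (0 : ℝ) < Z := by linarith
      refine FrG.kills_succ Fr v0 (R := 3 * k) hkill hnl hdeg hQ0 hD0 0 hk3 (by omega) (1 / (Z : ℝ))
        (by positivity) ?_ ?_ ?_ ?_ ?_ ?_ ?_ ?_ ?_
      · rw [div_le_one hZ0]; exact hZ1
      · have h3 : ((A * k : ℕ) : ℝ) * (Z : ℝ) ^ (2 * (Δ + 2)) ≤ 2 ^ D := by exact_mod_cast hN
        rw [one_div, inv_pow, inv_mul_eq_div, le_div_iff₀ (by positivity)]
        exact h3
      · rw [hQ]; rw [← mul_assoc]; omega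
      · refine le_trans ?_ hm
        calc 2 * (1 + Δ) * (3 * k + (Δ + 2) * (A * k) + (3 * k + (Δ + 2) * (A * k)) * (A * k))
            = 2 * (1 + Δ) * ((3 + (Δ + 2) * A) * (k + A * k ^ 2)) := by ring
          _ ≤ 2 * (1 + Δ) * ((3 + (Δ + 2) * A) * (k ^ 2 + A * k ^ 2)) := by gcongr
          _ = 2 * (1 + Δ) * ((3 + (Δ + 2) * A) * (1 + A)) * k ^ 2 := by ring
          _ ≤ _ := Nat.mul_le_mul_right _ (by omega)
      · have hE : (6 : ℝ) * Fintype.card (TE V E Q) * (Fintype.card (FI E Q) + 1) *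
            2 ^ (2 * Δ * (1 + Δ)) ≤ Z := by
          have : 6 * Fintype.card (TE V E Q) * (Fintype.card (FI E Q) + 1) *
            2 ^ (2 * Δ * (1 + Δ)) ≤ Z := by omega
          exact_mod_cast this
        calc (Fintype.card (TE V E Q) : ℝ) * ((Fintype.card (FI E Q) : ℝ) + 1) *
              (2 * (2 ^ (2 * Δ * (1 + Δ)) * (1 / (Z : ℝ))))
            = (6 * Fintype.card (TE V E Q) * (Fintype.card (FI E Q) + 1) *
              2 ^ (2 * Δ * (1 + Δ))) / Z * (1 / 3) := by ring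
          _ ≤ 1 * (1 / 3) := by
              gcongr
              rw [div_le_one hZ0]; exact hE
          _ = 1 / 3 := by ring
      · have h4 := hK k (by omega)
        have h5 : 2 * Fintype.card V < 2 ^ (2 * k) := by omega
        calc 2 ^ k * (2 * Fintype.card V) < 2 ^ k * 2 ^ (2 * k) :=
              (Nat.mul_lt_mul_left (by positivity)).2 h5
          _ = 2 ^ (3 * k) := by rw [← pow_add]; congr 1; ring
      · calc 2 * (1 + Δ) * (3 * k) = 6 * (1 + Δ) * k := by ring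
          _ ≤ _ := Nat.mul_le_mul_right _ (by omega)
      · calc 2 * (Δ + 2) * (A * k) = 2 * (Δ + 2) * A * k := by ring
          _ ≤ _ := Nat.mul_le_mul_right _ (by omega)
      · refine le_trans ?_ hm
        calc k * ((6 * (1 + Δ) + 2 * (Δ + 2) * A) * k) + (2 * Δ + 10) * (A * k)
            = (6 * (1 + Δ) + 2 * (Δ + 2) * A) * k ^ 2 + (2 * Δ + 10) * A * k := by ring
          _ ≤ (6 * (1 + Δ) + 2 * (Δ + 2) * A) * k ^ 2 + (2 * Δ + 10) * A * k ^ 2 := by gcongr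
          _ = ((6 * (1 + Δ) + 2 * (Δ + 2) * A) + (2 * Δ + 10) * A) * k ^ 2 := by ring
          _ ≤ _ := Nat.mul_le_mul_right _ (by omega)

end FrG
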