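import Pool.Agent.Lib.MP_51bb46_lc.S.Final
import Pool.Agent.Lib.MP_51bb46_lc.S.SampB
import Pool.Agent.Lib.MP_51bb46_lc.D.Val
import Pool.Agent.Lib.MP_51bb46_lc.G.KillsG
import Pool.Agent.Lib.MP_51bb46_lc.G.TowersG

section

/-!
Local gates (namespace `FrG`): choice of the parameters.
-/

set_option linter.unusedSectionVars false

namespace FrG

open Finset

/-- **choice of parameters** -/
theorem numericG (D : ℕ) (δ : ℝ) (hδ : 0 < δ) (m : ℕ) : ∃ c : ℝ, 0 < c ∧ ∀ C : ℕ, ∃ N₀ : ℕ,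
    ∀ N ≥ N₀, ∃ s T s0 : ℕ, C ≤ s ∧ 0 < T ∧ s ^ m * T ≤ N ∧ 2 * (D + 3) * s0 ≤ T ^ (D + 2) ∧
      2 * (D + 3) ≤ s0 ∧ (∀ q : ℕ, (q : ℝ) ≤ (N : ℝ) ^ ((D : ℝ) + 2 - δ) → q ≤ s0) ∧
      (N : ℝ) ^ c ≤ s := by
  set e : ℝ := min δ (1 / 2) with he
  have he0 : 0 < e := lt_min hδ (by norm_num)
  have he1 : e ≤ 1 / 2 := min_le_right _ _
  have heδ : e ≤ δ := min_le_left _ _
  obtain ⟨M, hM⟩ : ∃ M : ℕ, ((m * (D + 2) + 1 : ℕ) : ℝ) / e ≤ M := exists_nat_ge _
  obtain ⟨M', hM'⟩ : ∃ M', M' = M + m + 1 := ⟨_, rfl⟩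
  have hMe : ((m * (D + 2) + 1 : ℕ) : ℝ) ≤ M' * e := by
    have h1 : ((m * (D + 2) + 1 : ℕ) : ℝ) ≤ M * e := by rwa [← div_le_iff₀ he0]
    have h2 : (M : ℝ) * e ≤ M' * e := by
      apply mul_le_mul_of_nonneg_right _ he0.le
      rw [hM']
      push_cast
      have : (0 : ℝ) ≤ m := Nat.cast_nonneg m
      linarith
    linarith
  have hM1 : 1 ≤ M' := by omega
  refine ⟨1 / (2 * M' + 2), by positivity, fun C => ?_⟩
  obtain ⟨S, hS⟩ : ∃ S : ℕ, S = 2 * (D + 3) * 2 ^ (M' * (D + 2)) + C + 2 * (D + 3) + 2 := ⟨_, rfl⟩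
  refine ⟨S ^ M', fun N hN => ?_⟩
  obtain ⟨s, hsN, hNs⟩ := FrS.exists_root_nat M' N hM1
  have hSs : S ≤ s := by
    by_contra h
    push Not at h
    have : (s + 1) ^ M' ≤ S ^ M' := Nat.pow_le_pow_left h M'
    omega
  have hs1 : 1 ≤ s := by omega
  have hs1R : (1 : ℝ) ≤ s := by exact_mod_cast hs1
  have hNs2 : N ≤ (2 * s) ^ M' := hNs.le.trans (Nat.pow_le_pow_left (by omega) M')
  have hN1 : 1 ≤ N := le_trans (Nat.one_le_pow _ _ hs1) hsN
  have hN1R : (1 : ℝ) ≤ N := by exact_mod_cast hN1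
  have hD0 : (0 : ℝ) ≤ D := Nat.cast_nonneg D
  have hM0 : (0 : ℝ) ≤ M' := Nat.cast_nonneg M'
  have hsN' : s ≤ N := by
    calc s = s ^ 1 := (pow_one s).symm
      _ ≤ s ^ M' := Nat.pow_le_pow_right hs1 hM1
      _ ≤ N := hsN
  refine ⟨s, s ^ (M' - m), ⌊(N : ℝ) ^ ((D : ℝ) + 2 - e)⌋₊, by omega, Nat.pow_pos (by omega), ?_,
    ?_, ?_, ?_, ?_⟩
  · rw [← pow_add]
    have : m + (M' - m) = M' := by omega
    rw [this]
    exact hsN
  · have h1 : (2 * (D + 3) * ⌊(N : ℝ) ^ ((D : ℝ) + 2 - e)⌋₊ : ℝ) ≤ ((s ^ (M' - m)) ^ (D + 2) : ℕ) := by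
      have hfl : (⌊(N : ℝ) ^ ((D : ℝ) + 2 - e)⌋₊ : ℝ) ≤ (N : ℝ) ^ ((D : ℝ) + 2 - e) :=
        Nat.floor_le (by positivity)
      calc (2 * (D + 3) * ⌊(N : ℝ) ^ ((D : ℝ) + 2 - e)⌋₊ : ℝ)
          ≤ 2 * (D + 3) * (N : ℝ) ^ ((D : ℝ) + 2 - e) := by gcongr
        _ ≤ 2 * (D + 3) * (((2 * s : ℕ) : ℝ) ^ M') ^ ((D : ℝ) + 2 - e) := by
            apply mul_le_mul_of_nonneg_left _ (by positivity)
            apply Real.rpow_le_rpow (by linarith) _ (by linarith)
            exact_mod_cast hNs2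
        _ = 2 * (D + 3) * ((2 : ℝ) ^ ((M' : ℝ) * ((D : ℝ) + 2 - e)) *
              (s : ℝ) ^ ((M' : ℝ) * ((D : ℝ) + 2 - e))) := by
            rw [← Real.rpow_natCast, ← Real.rpow_mul (Nat.cast_nonneg _), Nat.cast_mul,
              Real.mul_rpow (by norm_num) (by linarith)]
            norm_num
        _ ≤ 2 * (D + 3) * ((2 : ℝ) ^ ((M' * (D + 2) : ℕ) : ℝ) *
              (s : ℝ) ^ (((M' - m) * (D + 2) : ℕ) - 1 : ℝ)) := by
            apply mul_le_mul_of_nonneg_left _ (by positivity)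
            apply mul_le_mul _ _ (Real.rpow_nonneg (by linarith) _)
              (Real.rpow_nonneg (by norm_num) _)
            · apply Real.rpow_le_rpow_of_exponent_le (by norm_num)
              push_cast
              nlinarith
            · apply Real.rpow_le_rpow_of_exponent_le hs1R
              have hsub : (((M' - m) * (D + 2) : ℕ) : ℝ) = ((M' : ℝ) - m) * (D + 2) := by
                rw [Nat.cast_mul, Nat.cast_sub (by omega)]
                push_cast
                ring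
              rw [hsub]
              push_cast at hMe
              nlinarith
        _ = (2 * (D + 3) * 2 ^ (M' * (D + 2))) * (s : ℝ) ^ (((M' - m) * (D + 2) : ℕ) - 1 : ℝ) := by
            rw [Real.rpow_natCast]
            ring
        _ ≤ (s : ℝ) * (s : ℝ) ^ (((M' - m) * (D + 2) : ℕ) - 1 : ℝ) := by
            apply mul_le_mul_of_nonneg_right _ (Real.rpow_nonneg (by linarith) _)
            have : 2 * (D + 3) * 2 ^ (M' * (D + 2)) ≤ s := by omega
            exact_mod_cast this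
        _ = (s : ℝ) ^ (((M' - m) * (D + 2) : ℕ) : ℝ) := by
            nth_rewrite 1 [← Real.rpow_one (s : ℝ)]
            rw [← Real.rpow_add (by linarith)]
            congr 1
            ring
        _ = ((s ^ (M' - m)) ^ (D + 2) : ℕ) := by
            rw [Real.rpow_natCast, ← pow_mul]
            push_cast
            rfl
    exact_mod_cast h1
  · apply Nat.le_floor
    calc ((2 * (D + 3) : ℕ) : ℝ) ≤ (N : ℝ) := by
          have : 2 * (D + 3) ≤ N := by omega
          exact_mod_cast this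
      _ = (N : ℝ) ^ (1 : ℝ) := (Real.rpow_one _).symm
      _ ≤ (N : ℝ) ^ ((D : ℝ) + 2 - e) := Real.rpow_le_rpow_of_exponent_le hN1R (by linarith)
  · intro q hq
    apply Nat.le_floor
    exact hq.trans (Real.rpow_le_rpow_of_exponent_le hN1R (by linarith))
  · calc (N : ℝ) ^ (1 / (2 * (M' : ℝ) + 2))
        ≤ ((((s * s : ℕ)) : ℝ) ^ M') ^ (1 / (2 * (M' : ℝ) + 2)) := by
          apply Real.rpow_le_rpow (Nat.cast_nonneg _) _ (by positivity)
          have : N ≤ (s * s) ^ M' :=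
            hNs2.trans (Nat.pow_le_pow_left (Nat.mul_le_mul_right _ (by omega)) M')
          exact_mod_cast this
      _ = (s : ℝ) ^ (2 * (M' : ℝ) * (1 / (2 * (M' : ℝ) + 2))) := by
          rw [Nat.cast_mul, ← pow_two, ← pow_mul, ← Real.rpow_natCast,
            ← Real.rpow_mul (by linarith)]
          push_cast
          rfl
      _ ≤ (s : ℝ) ^ (1 : ℝ) := by
          apply Real.rpow_le_rpow_of_exponent_le hs1R
          rw [mul_one_div, div_le_one (by positivity)]
          linarith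
      _ = s := Real.rpow_one _

end FrG
end

section

/-!
Local gates (namespace `FrG`): a random restriction after which each set of at most
`T ^ (D + 2) / (2 (D + 3))` fine edges, of a family of at most `2 ^ k` sets, is hit by the paths of
few coarse edges.
-/

set_option linter.unusedSectionVars false

namespace FrG

open Finset Fr56 FrS
open scoped Classical

variable {D : ℕ}

/-- the path of the coarse edge `e` meets the set `κ` of fine edges -/
def Hit {n T : ℕ} (hT : 0 < T) (κ : Finset (E D)) (e : E D) (a : Asg D n T) : Prop :=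
  ∃ z ∈ κ, (mkR hT a 0).Pe e z ≠ 0

/-- the colour of an edge -/
def ecol (e : E D) : Fin (D + 3) × Bool := (e.2, decide (e.1 e.2 % 2 = 0))

/-- the endpoints of an edge, as vertices of the box -/
noncomputable def evx (n : ℕ) (e : E D) : Finset ↥(box D n) :=
  univ.filter fun v => v.1 = e.1 ∨ v.1 = e.1 + ev e.2

theorem ecol_disj {n : ℕ} {e f : E D} (hc : ecol e = ecol f) (hne : e ≠ f) :
    Disjoint (evx n e) (evx n f) := by
  rw [Finset.disjoint_left]
  intro v hv hv'
  apply hne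
  unfold evx at hv hv'
  rw [Finset.mem_filter] at hv hv'
  obtain ⟨e1, i⟩ := e
  obtain ⟨f1, j⟩ := f
  simp only [ecol, Prod.mk.injEq] at hc
  obtain ⟨hij, hp⟩ := hc
  subst hij
  have hp' : e1 i % 2 = 0 ↔ f1 i % 2 = 0 := by simpa using hp
  have h1 := hv.2
  have h2 := hv'.2
  simp only at h1 h2
  rw [Prod.mk.injEq]
  refine ⟨?_, rfl⟩
  rcases h1 with h1 | h1 <;> rcases h2 with h2 | h2
  · rw [← h1, h2]
  · exfalso
    have := congrFun (h1.symm.trans h2) i
    rw [Pi.add_apply, ev_same] at this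
    omega
  · exfalso
    have := congrFun (h1.symm.trans h2) i
    rw [Pi.add_apply, ev_same] at this
    omega
  · have := h1.symm.trans h2
    exact add_right_cancel this

theorem hit_congr {n T : ℕ} (hT : 0 < T) (κ : Finset (E D)) {e : E D} {a b : Asg D n T}
    (h : ∀ v ∈ evx n e, a v = b v) : Hit hT κ e a ↔ Hit hT κ e b := by
  unfold Hit
  have : (mkR hT a 0).Pe e = (mkR hT b 0).Pe e := by
    apply Pe_congr hT
    · exact tot_congr fun hv => h ⟨_, hv⟩ (by
        unfold evx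
        exact Finset.mem_filter.2 ⟨Finset.mem_univ _, Or.inl rfl⟩)
    · exact tot_congr fun hv => h ⟨_, hv⟩ (by
        unfold evx
        exact Finset.mem_filter.2 ⟨Finset.mem_univ _, Or.inr rfl⟩)
  rw [this]

/-- the expected number of coarse edges that hit `κ` -/
theorem sum_pr_hitE {n T : ℕ} (hT : 0 < T) (κ : Finset (E D)) :
    ∑ e ∈ edges D n, pr (fun a : Asg D n T => Hit hT κ e a) ≤
      2 * (D + 3) * κ.card / (T : ℝ) ^ (D + 2) := by
  have hTpos : (0 : ℝ) < (T : ℝ) ^ (D + 2) := by positivity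
  have step2 : ∀ z : E D, ∑ e ∈ edges D n,
      pr (fun a : Asg D n T => (mkR hT a 0).Pe e z ≠ 0) ≤
        2 * (D + 3) * (1 / (T : ℝ) ^ (D + 2)) := by
    intro z
    have h1 : ∀ e ∈ edges D n, pr (fun a : Asg D n T => (mkR hT a 0).Pe e z ≠ 0) ≤
        if (∀ k, k ≠ e.2 → z.1 k / (T : ℤ) = e.1 k) ∧
          (z.1 e.2 / (T : ℤ) = e.1 e.2 ∨ z.1 e.2 / (T : ℤ) = e.1 e.2 + 1) then
            1 / (T : ℝ) ^ (D + 2) else 0 := by
      intro e he
      split_ifs with h
      · exact pr_Pe hT e he z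
      · have h2 : pr (fun a : Asg D n T => (mkR hT a 0).Pe e z ≠ 0) ≤
            pr (fun _ : Asg D n T => False) := by
          apply pr_mono
          intro a ha
          apply h
          exact Rst.Pe_block (mkR hT a 0) (u := e.1) (i := e.2) ha
        rw [pr_false] at h2
        exact h2
    refine (Finset.sum_le_sum h1).trans ?_
    rw [← Finset.sum_filter, Finset.sum_const, nsmul_eq_mul]
    apply mul_le_mul_of_nonneg_right _ (by positivity)
    have h3 := card_edges_near n T z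
    calc (_ : ℝ) ≤ ((2 * (D + 3) : ℕ) : ℝ) := by exact_mod_cast h3
      _ = _ := by push_cast; ring
  calc ∑ e ∈ edges D n, pr (fun a : Asg D n T => Hit hT κ e a)
      ≤ ∑ e ∈ edges D n, ∑ z ∈ κ, pr (fun a : Asg D n T => (mkR hT a 0).Pe e z ≠ 0) :=
        Finset.sum_le_sum fun e _ => pr_exists_le κ fun z a => (mkR hT a 0).Pe e z ≠ 0
    _ = ∑ z ∈ κ, ∑ e ∈ edges D n, pr (fun a : Asg D n T => (mkR hT a 0).Pe e z ≠ 0) :=
        Finset.sum_comm
    _ ≤ ∑ _z ∈ κ, 2 * (D + 3) * (1 / (T : ℝ) ^ (D + 2)) := Finset.sum_le_sum fun z _ => step2 z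
    _ = _ := by
        rw [Finset.sum_const, nsmul_eq_mul]
        ring

/-- the number of coarse edges of colour `c` that hit `κ` -/
noncomputable def nh {n T : ℕ} (hT : 0 < T) (κ : Finset (E D)) (c : Fin (D + 3) × Bool)
    (a : Asg D n T) : ℕ :=
  (((edges D n).filter fun e => ecol e = c).filter fun e => Hit hT κ e a).card

/-- exponential moment -/
theorem mgf_nh {n T : ℕ} (hT : 0 < T) (κ : Finset (E D)) (c : Fin (D + 3) × Bool) :
    av (fun a : Asg D n T => (4 : ℝ) ^ nh hT κ c a) ≤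
      Real.exp (3 * (2 * (D + 3) * κ.card / (T : ℝ) ^ (D + 2))) := by
  have : Nonempty (Fin T) := ⟨⟨0, hT⟩⟩
  set C : Finset (E D) := (edges D n).filter fun e => ecol e = c with hC
  let hfun : E D → Asg D n T → ℝ := fun e a => if Hit hT κ e a then 4 else 1
  have e1 : ∀ a : Asg D n T, (4 : ℝ) ^ (nh hT κ c a) = ∏ e ∈ C, hfun e a := by
    intro a
    simp only [hfun]
    rw [Finset.prod_ite, Finset.prod_const, Finset.prod_const, one_pow, mul_one]
    rfl
  have e2 : av (fun a : Asg D n T => 1 * ∏ e ∈ C, hfun e a) =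
      av (fun _ : Asg D n T => (1 : ℝ)) * ∏ e ∈ C, av (hfun e) := by
    apply av_prod_indep (evx n) hfun _ C _ ∅ _ (fun _ : Asg D n T => (1 : ℝ))
    · intro a b _
      rfl
    · intro e a b hab
      dsimp only [hfun]
      have := hit_congr hT κ (e := e) (a := a) (b := b) hab
      by_cases h : Hit hT κ e a
      · rw [if_pos h, if_pos (this.1 h)]
      · rw [if_neg h, if_neg fun h' => h (this.2 h')]
    · intro e he f hf hne
      rw [hC, Finset.mem_filter] at he hf
      exact ecol_disj (he.2.trans hf.2.symm) hne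
    · intro e _
      exact Finset.disjoint_empty_right _
  rw [av_const, one_mul] at e2
  have e4 : (fun a : Asg D n T => (4 : ℝ) ^ (nh hT κ c a)) =
      fun a : Asg D n T => 1 * ∏ e ∈ C, hfun e a := by
    funext a
    rw [e1 a, one_mul]
  rw [e4, e2]
  calc ∏ e ∈ C, av (hfun e)
      ≤ ∏ e ∈ C, Real.exp (3 * pr (fun a : Asg D n T => Hit hT κ e a)) := by
        apply Finset.prod_le_prod
        · intro e _
          apply av_nonneg
          intro a
          simp only [hfun]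
          split_ifs <;> norm_num
        · intro e _
          have e6 : av (fun a : Asg D n T => if Hit hT κ e a then (1 : ℝ) else 0) =
              pr (fun a : Asg D n T => Hit hT κ e a) := by
            unfold av pr
            rw [Finset.sum_ite, Finset.sum_const_zero, add_zero, Finset.sum_const, nsmul_eq_mul,
              mul_one]
          have h8 : av (hfun e) =
              1 + 3 * av (fun a : Asg D n T => if Hit hT κ e a then (1 : ℝ) else 0) := by
            rw [← av_const_mul]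
            have := av_add (fun _ : Asg D n T => (1 : ℝ))
              (fun a : Asg D n T => 3 * if Hit hT κ e a then (1 : ℝ) else 0)
            rw [av_const] at this
            rw [← this]
            congr 1
            funext a
            simp only [hfun]
            split_ifs <;> ring
          rw [h8, e6]
          have h5 := Real.add_one_le_exp (3 * pr (fun a : Asg D n T => Hit hT κ e a))
          linarith
    _ = Real.exp (∑ e ∈ C, 3 * pr (fun a : Asg D n T => Hit hT κ e a)) := by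
        rw [Real.exp_sum]
    _ ≤ _ := by
        apply Real.exp_le_exp.2
        rw [← Finset.mul_sum]
        apply mul_le_mul_of_nonneg_left _ (by norm_num)
        have h7 : ∑ e ∈ C, pr (fun a : Asg D n T => Hit hT κ e a) ≤
            ∑ e ∈ edges D n, pr (fun a : Asg D n T => Hit hT κ e a) :=
          Finset.sum_le_sum_of_subset_of_nonneg (Finset.filter_subset _ _)
            (fun e _ _ => pr_nonneg _)
        exact h7.trans (sum_pr_hitE hT κ)

/-- tail bound -/
theorem tail_nh {n T : ℕ} (hT : 0 < T) (κ : Finset (E D)) (c : Fin (D + 3) × Bool)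
    (hκ : 2 * (D + 3) * κ.card ≤ T ^ (D + 2)) (j : ℕ) :
    pr (fun a : Asg D n T => j ≤ nh hT κ c a) ≤ 64 / 4 ^ j := by
  have hTpos : (0 : ℝ) < (T : ℝ) ^ (D + 2) := by positivity
  have h1 : 2 * (D + 3) * κ.card / (T : ℝ) ^ (D + 2) ≤ 1 := by
    rw [div_le_one hTpos]
    exact_mod_cast hκ
  have h2 := mgf_nh (n := n) hT κ c
  have h3 : Real.exp (3 * (2 * (D + 3) * κ.card / (T : ℝ) ^ (D + 2))) ≤ 64 := by
    calc Real.exp (3 * (2 * (D + 3) * κ.card / (T : ℝ) ^ (D + 2))) ≤ Real.exp (3 * 1) :=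
          Real.exp_le_exp.2 (by linarith)
      _ = Real.exp 1 ^ 3 := by rw [← Real.exp_nat_mul]; norm_num
      _ ≤ 4 ^ 3 := by
          apply pow_le_pow_left₀ (Real.exp_pos _).le
          have := Real.exp_one_lt_d9
          linarith
      _ = 64 := by norm_num
  have h4 : pr (fun a : Asg D n T => j ≤ nh hT κ c a) * 4 ^ j ≤
      av (fun a : Asg D n T => (4 : ℝ) ^ nh hT κ c a) := by
    have e6 : av (fun a : Asg D n T => (if j ≤ nh hT κ c a then (1 : ℝ) else 0) * 4 ^ j) =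
        pr (fun a : Asg D n T => j ≤ nh hT κ c a) * 4 ^ j := by
      rw [av_mul_const]
      congr 1
      unfold av pr
      rw [Finset.sum_ite, Finset.sum_const_zero, add_zero, Finset.sum_const, nsmul_eq_mul,
        mul_one]
      congr!
    rw [← e6]
    apply av_mono
    intro a
    by_cases h : j ≤ nh hT κ c a
    · rw [if_pos h, one_mul]
      exact pow_le_pow_right₀ (by norm_num) h
    · rw [if_neg h, zero_mul]
      positivity
  rw [le_div_iff₀ (by positivity)]
  linarith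

/-- **the sample lemma** -/
theorem exists_asg {n T k : ℕ} (hT : 0 < T) (𝒦 : Finset (Finset (E D))) (hK : 𝒦.card ≤ 2 ^ k)
    (hκ : ∀ κ ∈ 𝒦, 2 * (D + 3) * κ.card ≤ T ^ (D + 2)) : ∃ a : Asg D n T, ∀ κ ∈ 𝒦,
    ((edges D n).filter fun e => Hit hT κ e a).card ≤ 2 * (D + 3) * (k + D + 7) := by
  have : Nonempty (Fin T) := ⟨⟨0, hT⟩⟩
  obtain ⟨j, hj⟩ : ∃ j, j = k + D + 7 := ⟨_, rfl⟩
  set Bad : Asg D n T → Prop := fun a => ∃ p ∈ 𝒦 ×ˢ (univ : Finset (Fin (D + 3) × Bool)),
    j ≤ nh hT p.1 p.2 a with hBad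
  have hlt : pr Bad < 1 := by
    have h1 : pr Bad ≤ ∑ p ∈ 𝒦 ×ˢ (univ : Finset (Fin (D + 3) × Bool)),
        pr (fun a : Asg D n T => j ≤ nh hT p.1 p.2 a) := pr_exists_le _ _
    have h2 : ∑ p ∈ 𝒦 ×ˢ (univ : Finset (Fin (D + 3) × Bool)),
        pr (fun a : Asg D n T => j ≤ nh hT p.1 p.2 a) ≤
        ∑ _p ∈ 𝒦 ×ˢ (univ : Finset (Fin (D + 3) × Bool)), (64 / 4 ^ j : ℝ) := by
      apply Finset.sum_le_sum
      intro p hp
      exact tail_nh hT p.1 p.2 (hκ _ (Finset.mem_product.1 hp).1) j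
    rw [Finset.sum_const, nsmul_eq_mul, Finset.card_product, Finset.card_univ,
      Fintype.card_prod, Fintype.card_fin, Fintype.card_bool] at h2
    have h3 : 𝒦.card * ((D + 3) * 2) * 64 < 4 ^ j := by
      have h4 : D + 3 < 2 ^ (D + 3) := Nat.lt_two_pow_self
      have h5 : 𝒦.card * ((D + 3) * 2) ≤ 2 ^ k * (2 ^ (D + 3) * 2) :=
        Nat.mul_le_mul hK (Nat.mul_le_mul_right _ h4.le)
      calc 𝒦.card * ((D + 3) * 2) * 64 ≤ 2 ^ k * (2 ^ (D + 3) * 2) * 64 :=
            Nat.mul_le_mul_right _ h5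
        _ = 2 ^ (k + (D + 3) + 7) := by rw [pow_add, pow_add]; ring
        _ < 2 ^ (2 * (k + D + 7)) := Nat.pow_lt_pow_right (by norm_num) (by omega)
        _ = 4 ^ j := by rw [hj, pow_mul]; norm_num
    have h6 : ((𝒦.card * ((D + 3) * 2) : ℕ) : ℝ) * (64 / 4 ^ j) < 1 := by
      rw [← mul_div_assoc, div_lt_one (by positivity)]
      exact_mod_cast h3
    exact lt_of_le_of_lt (h1.trans h2) h6
  obtain ⟨a, ha⟩ := exists_of_pr_lt_one hlt
  refine ⟨a, fun κ hκ' => ?_⟩
  have h1 : ((edges D n).filter fun e => Hit hT κ e a).card =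
      ∑ c ∈ (univ : Finset (Fin (D + 3) × Bool)), nh hT κ c a := by
    rw [Finset.card_eq_sum_card_fiberwise (f := ecol) (t := univ)
      (fun _ _ => Finset.mem_coe.2 (Finset.mem_univ _))]
    apply Finset.sum_congr rfl
    intro c _
    unfold nh
    congr 1
    ext e
    simp only [Finset.mem_filter]
    tauto
  rw [h1]
  calc ∑ c ∈ (univ : Finset (Fin (D + 3) × Bool)), nh hT κ c a
      ≤ ∑ _c ∈ (univ : Finset (Fin (D + 3) × Bool)), j := by
        apply Finset.sum_le_sum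
        intro c _
        by_contra hcon
        exact ha ⟨(κ, c), Finset.mem_product.2 ⟨hκ', Finset.mem_univ _⟩, by
          simp only
          omega⟩
    _ = 2 * (D + 3) * (k + D + 7) := by
        rw [Finset.sum_const, Finset.card_univ, Fintype.card_prod, Fintype.card_fin,
          Fintype.card_bool, smul_eq_mul, hj]
        ring

end FrG
end

section

/-!
Local gates (namespace `FrG`): after a restriction under which each local formula is hit by few
coarse edges, evaluation is a valuation of the local formulas on every graph embedded in the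
coarse grid.
-/

set_option linter.unusedSectionVars false

namespace FrG

open Finset Fr56 FrS
open scoped Classical

/-! ### the set of variables of a formula -/

section
variable {X : Type}

/-- the variables of a formula, as a finite set -/
noncomputable def vf (f : Fm X) : Finset X := (lv f).toFinset

theorem mem_vf (f : Fm X) (x : X) : x ∈ vf f ↔ x ∈ f.vars := by
  unfold vf
  rw [List.mem_toFinset]
  induction f with
  | var v =>
    simp only [lv, List.mem_singleton, Fm.vars, Set.mem_singleton_iff]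
  | neg f ih => simpa only [lv, Fm.vars] using ih
  | and f g ihf ihg => simp only [lv, Fm.vars, List.mem_append, Set.mem_union, ihf, ihg]
  | or f g ihf ihg => simp only [lv, Fm.vars, List.mem_append, Set.mem_union, ihf, ihg]

theorem coe_vf (f : Fm X) : ((vf f : Finset X) : Set X) = f.vars := by
  ext x
  rw [Finset.mem_coe, mem_vf]

theorem card_vf (f : Fm X) : (vf f).card = f.vars.ncard := by
  rw [← coe_vf, Set.ncard_coe_finset]

theorem card_vf_le (f : Fm X) : (vf f).card ≤ f.leaves := by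
  unfold vf
  rw [← length_lv]
  exact List.toFinset_card_le _

theorem vf_neg (f : Fm X) : vf f.neg = vf f := rfl

theorem vf_and (f g : Fm X) : vf (f.and g) = vf f ∪ vf g := by
  unfold vf
  simp only [lv, List.toFinset_append]

theorem vf_or (f g : Fm X) : vf (f.or g) = vf f ∪ vf g := by
  unfold vf
  simp only [lv, List.toFinset_append]

theorem vf_map {Y : Type} (τ : X → Y) (f : Fm X) : (vf (f.map τ)).card ≤ (vf f).card := by
  have h : vf (f.map τ) = (vf f).image τ := by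
    ext y
    unfold vf
    rw [lv_map, List.mem_toFinset, List.mem_map, Finset.mem_image]
    constructor
    · rintro ⟨x, hx, rfl⟩
      exact ⟨x, List.mem_toFinset.2 hx, rfl⟩
    · rintro ⟨x, hx, rfl⟩
      exact ⟨x, List.mem_toFinset.1 hx, rfl⟩
  rw [h]
  exact Finset.card_image_le

/-- the formulas with at most `s` distinct variables form a base class -/
theorem bas_vf {s : ℕ} (hs : 1 ≤ s) : Bas fun f : Fm X => (vf f).card ≤ s where
  var v := by
    have : vf (Fm.var v) = {v} := by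
      unfold vf
      simp only [lv, List.toFinset_cons, List.toFinset_nil]
      rfl
    rw [this, Finset.card_singleton]
    exact hs
  neg f := Iff.rfl
  and f g h := by
    rw [vf_and] at h
    exact ⟨(Finset.card_le_card Finset.subset_union_left).trans h,
      (Finset.card_le_card Finset.subset_union_right).trans h⟩
  or f g h := by
    rw [vf_or] at h
    exact ⟨(Finset.card_le_card Finset.subset_union_left).trans h,
      (Finset.card_le_card Finset.subset_union_right).trans h⟩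

end

/-! ### the variables of a clause -/

theorem disj_vars {X : Type} (d : Fm X) (l : List (Fm X)) (f : Fm X) (hf : f ∈ l) (x : X)
    (hx : x ∈ f.vars) : x ∈ (Fm.disj d l).vars := by
  induction l with
  | nil => simp at hf
  | cons g l ih =>
    cases l with
    | nil =>
      rw [List.mem_singleton] at hf
      subst hf
      exact hx
    | cons g' l =>
      simp only [Fm.disj, Fm.vars, Set.mem_union]
      rcases List.mem_cons.1 hf with rfl | hf
      · exact Or.inl hx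
      · exact Or.inr (ih hf)

theorem star_vars {D N : ℕ} (u0 : E D) (v : V D) (P : Finset (E D)) {z : E D}
    (hz : z ∈ FrS.star N v) : z ∈ (clause u0 N v P).vars := by
  unfold clause
  refine disj_vars _ _ (if z ∈ P then Fm.neg (.var z) else Fm.var z) ?_ z ?_
  · rw [List.mem_map]
    exact ⟨z, Finset.mem_toList.2 hz, rfl⟩
  · split_ifs
    · exact rfl
    · exact rfl

/-- a chain with nonzero boundary at `v` contains an edge at `v` -/
theorem exists_of_bd {D : ℕ} {y : Ch D} {v : V D} (h : bd y v ≠ 0) :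
    ∃ z : E D, y z ≠ 0 ∧ (z.1 = v ∨ z.1 + ev z.2 = v) := by
  by_contra hcon
  push Not at hcon
  apply h
  unfold bd
  refine Finset.sum_eq_zero fun i _ => ?_
  have h1 : y (v, i) = 0 := by
    by_contra hne
    exact (hcon (v, i) hne).1 rfl
  have h2 : y (v - ev i, i) = 0 := by
    by_contra hne
    exact (hcon (v - ev i, i) hne).2 (sub_add_cancel v (ev i))
  rw [h1, h2, add_zero]

section
variable {V E' : Type} [Fintype V] [Fintype E'] [DecidableEq V] [DecidableEq E'] {G : FrC.Gph V E'}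
  (Fr : FrC.Frame G) (v0 : V) {D n T : ℕ} (ν : FrD.Nmb V E' n) (hT : 0 < T) (a : Asg D n T)

/-- the coarse edges whose paths meet the variables of `f` -/
noncomputable def hset (f : Fm (E D)) : Finset (E D) :=
  (edges D n).filter fun e => Hit hT (vf f) e a

/-- the vertices on which `f` depends -/
noncomputable def RV (G : FrC.Gph V E') (f : Fm (E D)) : Finset V :=
  (hset hT a f).biUnion (FrD.rv G ν)

/-- the local truth relation -/
def gQ (f : Fm (E D)) (b : Bool) (U : Finset V) (y : E' → ZMod 2) : Prop :=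
  RV ν hT a G f ⊆ U ∧ f.eval (fun z => tbit ((mkR hT a 0).x (FrD.X G ν D v0 y) z)) = b

theorem x_congr {f : Fm (E D)} {U : Finset V} (hU : RV ν hT a G f ⊆ U) {y y' : E' → ZMod 2}
    (hag : G.Agree U y y') {z : E D} (hz : z ∈ f.vars) :
    (mkR hT a 0).x (FrD.X G ν D v0 y) z = (mkR hT a 0).x (FrD.X G ν D v0 y') z := by
  unfold Rst.x
  rw [Pi.add_apply, Pi.add_apply]
  congr 1
  unfold Rst.P
  refine Finset.sum_congr rfl fun e he => ?_
  by_cases h0 : (mkR hT a 0).Pe e z = 0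
  · rw [h0, mul_zero, mul_zero]
  · have h1 : FrD.rv G ν e ⊆ U := by
      refine Finset.Subset.trans ?_ hU
      unfold RV
      refine Finset.subset_biUnion_of_mem (FrD.rv G ν) ?_
      unfold hset
      exact Finset.mem_filter.2 ⟨he, z, (mem_vf f z).2 hz, h0⟩
    rw [FrD.X_congr G ν h1 hag]

/-- the valuation -/
def gVal (Φ : Set (Fm (E D))) (cap : ℕ) : FrC.Valn Fr v0 (E D) Φ cap where
  Q := gQ v0 ν hT a
  mono := by
    intro f _ b U U' y y' hU _ hQ hag _
    obtain ⟨h1, h2⟩ := hQ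
    refine ⟨h1.trans hU, ?_⟩
    rw [← h2]
    refine Fm.eval_congr fun z hz => ?_
    rw [x_congr v0 ν hT a h1 hag hz]
  uniq := by
    intro f _ U y _ _ h1 h2
    have := h1.2.symm.trans h2.2
    exact Bool.noConfusion this
  neg := by
    intro f _ _ b b' U y _ _ h1 h2
    rw [← h1.2, ← h2.2]
    rfl
  and := by
    intro f g _ _ _ b b' b'' U y _ _ h1 h2 h3
    rw [← h1.2, ← h2.2, ← h3.2]
    rfl
  or := by
    intro f g _ _ _ b b' b'' U y _ _ h1 h2 h3
    rw [← h1.2, ← h2.2, ← h3.2]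
    rfl

theorem gVal_dcds (Φ : Set (Fm (E D))) (cap : ℕ) {K : ℕ}
    (hK : ∀ f ∈ Φ, (hset hT a f).card ≤ K) : (gVal Fr v0 ν hT a Φ cap).Dcds (4 * K) := by
  intro f hf y _
  have hc : (RV ν hT a G f).card ≤ 4 * K := by
    unfold RV
    refine (Finset.card_biUnion_le_card_mul _ _ 4 fun e _ => FrD.card_rv G ν e).trans ?_
    rw [mul_comm]
    exact Nat.mul_le_mul_left _ (hK f hf)
  have h := FrC.Dec.node (Fr := Fr) (v0 := v0) (Q := gQ v0 ν hT a f) (k := 0) (n := 4 * K)
    (U := ∅) (y := y) (RV ν hT a G f) hc (fun y' _ _ => FrC.Dec.leaf _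
      ⟨Finset.subset_union_right, rfl⟩)
  rw [Nat.add_zero] at h
  exact h

/-- tautologies are locally true -/
theorem gVal_taut (Φ : Set (Fm (E D))) (cap w : ℕ) {f : Fm (E D)}
    (hf : ∀ x, f.eval x = true) : (gVal Fr v0 ν hT a Φ cap).True' w f := by
  intro U y _ _ hQ
  have h2 := hQ.2
  rw [hf] at h2
  exact Bool.noConfusion h2

/-- the clauses of the fine Tseitin formula are locally true -/
theorem gVal_clause (Φ : Set (Fm (E D))) (cap w : ℕ) {N : ℕ} (hn : 2 ≤ n) (hN : n * T ≤ N)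
    {p : FrS.V D × Finset (E D)} (hp : p ∈ clauses D N) :
    (gVal Fr v0 ν hT a Φ cap).True' w (clause (0, 0) N p.1 p.2) := by
  rintro U y _ ⟨t, ht, hfree⟩ ⟨hQ1, hQ2⟩
  have htU := Fr.disj hfree
  have hN2 : 2 ≤ N := hn.trans ((Nat.le_mul_of_pos_right n hT).trans hN)
  obtain ⟨hb, hY⟩ := FrD.Yt_X G ν (D := D) ht
  set t' : FrS.V D := FrD.p2 D (ν.ι t) 0 with ht'
  have hgood : (mkR hT a 0).Good N := ⟨Supp.zero, bd_zero, hN⟩
  have hY' : Yt N ((mkR hT a 0).cen t') ((mkR hT a 0).x (FrD.X G ν D v0 y)) :=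
    Rst.Yt_x (mkR hT a 0) hgood hb hY
  by_cases hv : (mkR hT a 0).cen t' = p.1
  · -- the violated vertex is the vertex of the clause
    have he : (t', (1 : Fin (D + 3))) ∈ edges D n := by
      rw [mem_edges]
      refine ⟨hb, ?_⟩
      rw [mem_box] at hb ⊢
      intro k
      have hk := hb k
      simp only
      rw [Pi.add_apply, ev_apply]
      split_ifs with h1
      · rw [h1, ht', FrD.p2_one]
        omega
      · rw [add_zero]
        exact hk
    have hbd : bd ((mkR hT a 0).Pe (t', 1)) ((mkR hT a 0).cen t') ≠ 0 := by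
      rw [Rst.bd_Pe, Pi.add_apply, dl_self, dl_ne, add_zero]
      · exact one_ne_zero
      · intro hcon
        have h1 := congrFun hcon (1 : Fin (D + 3))
        have h2 := congrArg (fun z : ℤ => z / (mkR hT a 0).T) h1
        simp only at h2
        rw [Rst.cen_div, Rst.cen_div, Pi.add_apply, ev_same] at h2
        omega
    obtain ⟨z, hz1, hz2⟩ := exists_of_bd hbd
    have hzN : z ∈ edges D N := by
      by_contra hcon
      apply hz1
      rw [mem_edges] at he
      exact supp_cp (Rst.cen_mem (mkR hT a 0) hN he.1) (Rst.cen_mem (mkR hT a 0) hN he.2) z hcon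
    have hzs : z ∈ FrS.star N p.1 := by
      unfold FrS.star
      rw [← hv]
      exact Finset.mem_filter.2 ⟨hzN, hz2⟩
    have hmem : (t', (1 : Fin (D + 3))) ∈ hset hT a (clause (0, 0) N p.1 p.2) := by
      unfold hset
      exact Finset.mem_filter.2 ⟨he, z, (mem_vf _ z).2 (star_vars _ _ _ hzs), hz1⟩
    have hsub : FrD.rv G ν (t', (1 : Fin (D + 3))) ⊆ U := by
      refine Finset.Subset.trans ?_ hQ1
      unfold RV
      exact Finset.subset_biUnion_of_mem (FrD.rv G ν) hmem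
    have := (FrD.far_of_rv G ν hsub htU).1
    apply this
    rw [ht']
    exact FrD.p2_zero (D := D) (ν.ι t) 0
  · have h1 := clause_true hN2 (0, 0) hp hY' hv
    rw [h1] at hQ2
    exact Bool.noConfusion hQ2

end

end FrG
end

section

/-!
Local gates (namespace `FrG`): the main theorem.
-/

set_option linter.unusedSectionVars false

namespace FrG

open Finset Fr56
open scoped Classical

theorem subSet_eq {X : Type} (π : List (Fm X)) :
    subSet π = (((π.flatMap Fm.subs).toFinset : Finset (Fm X)) : Set (Fm X)) := by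
  ext f
  rw [Finset.mem_coe, List.mem_toFinset, List.mem_flatMap]
  rfl

theorem ncard_subSet {X : Type} (π : List (Fm X)) :
    (subSet π).ncard = (π.flatMap Fm.subs).toFinset.card := by
  rw [subSet_eq, Set.ncard_coe_finset]

/-- there is no refutation with few subformulas, given valuations for all small sets of base
formulas -/
theorem no_small {V E X : Type} [Fintype V] [Fintype E] [DecidableEq V] [DecidableEq E]
    {G : FrC.Gph V E} (Fr : FrC.Frame G) (v0 : V) {d k kk cap : ℕ}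
    (hkill : Kills Fr v0 d kk k) {B : Fm X → Prop} (hB : Bas B)
    (hkk : k * kk ≤ cap) (hcap : cap ≤ Fr.m) (Ax : Set (Fm X))
    (hstage : ∀ Fs : Finset (Fm X), Fs.card ≤ 2 ^ k → (∀ f ∈ Fs, B f) →
      ∃ S : FrC.Valn Fr v0 X {f | f ∈ Fs} cap, S.Dcds kk ∧
        ∀ F ∈ Ax, AndOf (fun f => B f ∧ S.True' kk f) F)
    (R : List Rule) (hR : ∀ r ∈ R, r.Sound) (hRk : ∀ r ∈ R, r.nodes + 1 ≤ k) (b : Fm ℕ)
    (hb : b.Unsat) (hbk : b.size + 1 ≤ k) (τ : ℕ → X) (π : List (Fm X))
    (hπ : Derives R Ax π) (hbπ : b.map τ ∈ π)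
    (hlev : ∀ A ∈ π, lev B A ≤ d) (htot : (subSet π).ncard ≤ 2 ^ k) : False := by
  set Fs : Finset (Fm X) := (π.flatMap Fm.subs).toFinset with hFsdef
  have hmem : ∀ A, A ∈ Fs ↔ ∃ C ∈ π, A ∈ C.subs := by
    intro A
    rw [hFsdef, List.mem_toFinset, List.mem_flatMap]
  have hcard : Fs.card ≤ 2 ^ k := by
    rw [ncard_subSet] at htot
    exact htot
  have hsubs : ∀ f ∈ Fs, ∀ g ∈ f.subs, g ∈ Fs := by
    intro f hf g hg
    rw [hmem] at hf ⊢
    obtain ⟨C, hC, hfC⟩ := hf
    exact ⟨C, hC, Fm.subs_trans hg hfC⟩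
  set Fs' := Fs.filter (fun f => B f) with hFs'
  obtain ⟨S, hS1, hS2⟩ := hstage Fs' ((Finset.card_filter_le _ _).trans hcard)
    (fun f hf => (Finset.mem_filter.1 hf).2)
  have hset : {f | f ∈ Fs'} = {f | f ∈ Fs ∧ lev B f ≤ 0} := by
    ext f
    simp only [Set.mem_ofPred_eq, hFs', Finset.mem_filter, Nat.le_zero, lev_eq_zero_iff hB]
  have hS : ∃ S : FrC.Valn Fr v0 X {f | f ∈ Fs ∧ lev B f ≤ 0} cap, S.Dcds kk ∧
      ∀ F ∈ Ax, AndOf (fun f => B f ∧ S.True' kk f) F := by
    rw [← hset]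
    exact ⟨S, hS1, hS2⟩
  obtain ⟨S2, hS3, hS4⟩ := hS
  refine hkill X B Fs 0 cap S2 hB hsubs hcard hkk hcap hS3 R hR hRk Ax (fun F hF _ => ?_) b hb hbk
    τ π hπ hbπ (fun A hA => ⟨?_, ?_⟩)
  · refine (hS4 F hF).mono fun f _ hf => ⟨?_, hf.2⟩
    rw [Nat.le_zero, lev_eq_zero_iff hB]
    exact hf.1
  · exact (hmem A).2 ⟨A, hA, A.self_mem_subs⟩
  · rw [Nat.zero_add]
    exact hlev A hA

/-- valuations for all small sets of local formulas -/
theorem exists_valn {V E' : Type} [Fintype V] [Fintype E'] [DecidableEq V] [DecidableEq E']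
    {G : FrC.Gph V E'} (Fr : FrC.Frame G) (v0 : V) {D n T N k kk cap s0 : ℕ}
    (ν : FrD.Nmb V E' n) (hT : 0 < T) (hn : 2 ≤ n) (hN : n * T ≤ N)
    (hs0 : 2 * (D + 3) * s0 ≤ T ^ (D + 2)) (hs1 : 2 * (D + 3) ≤ s0)
    (hkk : 4 * (2 * (D + 3) * (k + D + 7)) ≤ kk)
    (Fs : Finset (Fm (FrS.E D))) (hcard : Fs.card ≤ 2 ^ k) (hFs : ∀ f ∈ Fs, (vf f).card ≤ s0) :
    ∃ S : FrC.Valn Fr v0 (FrS.E D) {f | f ∈ Fs} cap, S.Dcds kk ∧
      ∀ F ∈ ({FrS.Ts D N} ∪ {A | (vf A).card ≤ s0 ∧ ∀ x, A.eval x = true} :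
        Set (Fm (FrS.E D))), AndOf (fun f => (vf f).card ≤ s0 ∧ S.True' kk f) F := by
  obtain ⟨a, ha⟩ := exists_asg (D := D) (n := n) (T := T) (k := k) hT (Fs.image vf)
    (Finset.card_image_le.trans hcard) (by
      intro κ hκ
      obtain ⟨f, hf, rfl⟩ := Finset.mem_image.1 hκ
      exact (Nat.mul_le_mul_left _ (hFs f hf)).trans hs0)
  have hN2 : 2 ≤ N := hn.trans ((Nat.le_mul_of_pos_right n hT).trans hN)
  refine ⟨gVal Fr v0 ν hT a {f | f ∈ Fs} cap, ?_, ?_⟩
  · intro f hf y hy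
    exact (gVal_dcds Fr v0 ν hT a {f | f ∈ Fs} cap (K := 2 * (D + 3) * (k + D + 7))
      (fun g hg => ha _ (Finset.mem_image_of_mem vf hg)) f hf y hy).mono hkk
  · rintro F (hF | ⟨hF1, hF2⟩)
    · rw [Set.mem_singleton_iff] at hF
      subst hF
      refine FrS.Ts_induction hN2 (fun F => AndOf _ F) ?_ ?_
      · intro p hp _
        refine AndOf.base _ ⟨?_, gVal_clause Fr v0 ν hT a _ cap kk hn hN hp⟩
        exact (card_vf_le _).trans ((FrS.leaves_clause (0, 0) N (v := p.1) p.2).trans hs1)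
      · intro f g _ h1 h2
        exact AndOf.and f g h1 h2
    · exact AndOf.base F ⟨hF1, gVal_taut Fr v0 ν hT a _ cap kk hF2⟩

/-! ### renaming -/

theorem subs_map {X Y : Type} (τ : X → Y) (f : Fm X) : (f.map τ).subs = f.subs.map (Fm.map τ) := by
  induction f with
  | var v => rfl
  | neg f ih => simp [Fm.map, Fm.subs, ih]
  | and f g ihf ihg => simp [Fm.map, Fm.subs, ihf, ihg]
  | or f g ihf ihg => simp [Fm.map, Fm.subs, ihf, ihg]

theorem map_subst {X Y Z : Type} (τ : Y → Z) (A : Fm X) (σ : X → Fm Y) :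
    (A.subst σ).map τ = A.subst fun v => (σ v).map τ := by
  induction A with
  | var v => rfl
  | neg f ih => simp [Fm.map, Fm.subst, ih]
  | and f g ihf ihg => simp [Fm.map, Fm.subst, ihf, ihg]
  | or f g ihf ihg => simp [Fm.map, Fm.subst, ihf, ihg]

theorem derives_map {X Y : Type} (τ : X → Y) {R : List Rule} {Ax : Set (Fm X)}
    {Ax' : Set (Fm Y)} {π : List (Fm X)} (h : Derives R Ax π) (hAx : ∀ A ∈ Ax, A.map τ ∈ Ax') :
    Derives R Ax' (π.map (Fm.map τ)) := by
  intro i hi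
  rw [List.length_map] at hi
  rw [List.getElem_map]
  rcases h i hi with h1 | ⟨r, hr, σ, h1, h2⟩
  · exact Or.inl (hAx _ h1)
  · refine Or.inr ⟨r, hr, fun v => (σ v).map τ, ?_, fun A hA => ?_⟩
    · rw [h1, map_subst]
    · obtain ⟨j, hj, h3⟩ := h2 A hA
      refine ⟨j, hj, ?_⟩
      rw [List.getElem_map, h3, map_subst]

theorem ncard_subSet_map {X Y : Type} (τ : X → Y) (π : List (Fm X)) :
    (subSet (π.map (Fm.map τ))).ncard ≤ (subSet π).ncard := by
  have h : subSet (π.map (Fm.map τ)) = (Fm.map τ) '' subSet π := by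
    ext f
    constructor
    · rintro ⟨A, hA, hf⟩
      obtain ⟨A', hA', rfl⟩ := List.mem_map.1 hA
      rw [subs_map, List.mem_map] at hf
      obtain ⟨g, hg, rfl⟩ := hf
      exact ⟨g, ⟨A', hA', hg⟩, rfl⟩
    · rintro ⟨g, ⟨A', hA', hg⟩, rfl⟩
      refine ⟨A'.map τ, List.mem_map_of_mem hA', ?_⟩
      rw [subs_map]
      exact List.mem_map_of_mem hg
  rw [h]
  refine Set.ncard_image_le ?_
  rw [subSet_eq]
  exact Finset.finite_toSet _

/-- **local gates, grid form** -/
theorem main_grid (D d : ℕ) (δ : ℝ) (hδ : 0 < δ) : ∃ c : ℝ, 0 < c ∧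
    ∀ R : List Rule, (∀ r ∈ R, r.Sound) → ∀ b : Fm ℕ, b.Unsat →
      ∃ N₀, ∀ N ≥ N₀, ∀ π : List (Fm ℕ),
        Derives R ({FrS.TsN D N} ∪ {A | (A.vars.ncard : ℝ) ≤ (N : ℝ) ^ ((D : ℝ) + 2 - δ) ∧
          ∀ x, A.eval x = true}) π → b ∈ π →
        (∀ A ∈ π, ∃ (B : Fm ℕ) (σ : ℕ → Fm ℕ), A = B.subst σ ∧ FrC.depth B ≤ d ∧
          ∀ v, ((σ v).vars.ncard : ℝ) ≤ (N : ℝ) ^ ((D : ℝ) + 2 - δ)) →
        (2 : ℝ) ^ ((N : ℝ) ^ c) ≤ ((subSet π).ncard : ℕ) := by
  obtain ⟨A0, hA0⟩ : ∃ A0, A0 = 16 * (D + 3) := ⟨_, rfl⟩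
  obtain ⟨a, k0, htow⟩ := towers d A0 A0
  obtain ⟨c, hc, hnumeric⟩ := numericG D δ hδ (2 * a + 1)
  refine ⟨c, hc, fun R hR b hb => ?_⟩
  obtain ⟨C, hC, hCb⟩ : ∃ C, (∀ r ∈ R, r.nodes + 1 ≤ C) ∧ b.size + 1 ≤ C := by
    refine ⟨(R.map fun r => r.nodes + 1).sum + (b.size + 1), fun r hr => ?_, by omega⟩
    have := List.single_le_sum (l := R.map fun r => r.nodes + 1) (by simp) _
      (List.mem_map_of_mem hr)
    omega
  obtain ⟨N₁, hN₁⟩ := hnumeric (C + k0 + D + 7)
  refine ⟨N₁, fun N hN π hπ hbπ hs => ?_⟩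
  by_contra hlt
  push Not at hlt
  obtain ⟨s, T, s0, h1, hT, hnT, hs0, hs1, hfl, hNc⟩ := hN₁ N hN
  obtain ⟨V, E, iV, iE, dV, dE, G, Fr, v0, hl, hdeg, h0, hcV, hcE, hBm, hkill⟩ :=
    htow s (by omega)
  have hs2 : (s + 2) ^ a ≤ s ^ (2 * a + 1) := by
    calc (s + 2) ^ a ≤ (s * s) ^ a := Nat.pow_le_pow_left (by nlinarith) a
      _ = s ^ (2 * a) := by rw [← pow_two, ← pow_mul]
      _ ≤ s ^ (2 * a + 1) := Nat.pow_le_pow_right (by omega) (by omega)
  have hn2 : 2 ≤ s ^ (2 * a + 1) := by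
    calc 2 ≤ s := by omega
      _ = s ^ 1 := (pow_one s).symm
      _ ≤ s ^ (2 * a + 1) := Nat.pow_le_pow_right (by omega) (by omega)
  obtain ⟨ν⟩ := FrD.exists_nmb (V := V) (E := E) (hcV.trans hs2) (hcE.trans hs2)
  have htot : (subSet π).ncard ≤ 2 ^ s := by
    have h1 : (((subSet π).ncard : ℕ) : ℝ) ≤ ((2 ^ s : ℕ) : ℝ) := by
      refine hlt.le.trans ?_
      push_cast
      rw [← Real.rpow_natCast]
      exact Real.rpow_le_rpow_of_exponent_le (by norm_num) hNc
    exact_mod_cast h1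
  have hvar : ∀ f : Fm ℕ, (f.vars.ncard : ℝ) ≤ (N : ℝ) ^ ((D : ℝ) + 2 - δ) →
      (vf (f.map (FrS.decE D))).card ≤ s0 := by
    intro f hf
    refine (vf_map _ f).trans ?_
    rw [card_vf]
    exact hfl _ hf
  refine no_small Fr v0 (d := d) (k := s) (kk := A0 * s) (cap := s * (A0 * s)) hkill
    (B := fun f : Fm (FrS.E D) => (vf f).card ≤ s0) (bas_vf (by omega)) le_rfl (by
      refine le_trans (le_of_eq ?_) hBm
      ring)
    ({FrS.Ts D N} ∪ {A | (vf A).card ≤ s0 ∧ ∀ x, A.eval x = true})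
    (fun Fs hF1 hF2 => exists_valn Fr v0 ν hT hn2 hnT hs0 hs1 ?_ Fs hF1 hF2) R hR
    (fun r hr => (hC r hr).trans (by omega)) b hb (hCb.trans (by omega)) (FrS.decE D)
    (π.map (Fm.map (FrS.decE D))) ?_ ?_ ?_ ?_
  · rw [hA0]
    have : s + D + 7 ≤ 2 * s := by omega
    calc 4 * (2 * (D + 3) * (s + D + 7)) ≤ 4 * (2 * (D + 3) * (2 * s)) := by gcongr
      _ = 16 * (D + 3) * s := by ring
  · refine derives_map (FrS.decE D) hπ ?_
    rintro A (hA | ⟨hA1, hA2⟩)
    · rw [Set.mem_singleton_iff] at hA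
      subst hA
      exact Or.inl (FrS.TsN_dec D N)
    · refine Or.inr ⟨hvar A hA1, fun x => ?_⟩
      rw [Fm.eval_map]
      exact hA2 _
  · exact List.mem_map_of_mem hbπ
  · intro A hA
    obtain ⟨A1, hA1, rfl⟩ := List.mem_map.1 hA
    obtain ⟨B, σ, rfl, hB, hσ⟩ := hs A1 hA1
    rw [map_subst]
    exact (lev_subst (bas_vf (by omega)) B _ fun v => hvar (σ v) (hσ v)).trans hB
  · exact (ncard_subSet_map _ π).trans htot

/-- **local gates**: one family of CNFs for all depths, gates of fan-in `|F| ^ (1 - ε)` -/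
theorem main_exp (ε : ℝ) (hε : 0 < ε) : ∃ (w : ℕ) (F : ℕ → Fm ℕ),
    (∀ n, (F n).Unsat ∧ (F n).IsCNF w ∧ n ≤ (F n).size) ∧
    ∀ d : ℕ, ∃ c : ℝ, 0 < c ∧ ∀ R : List Rule, (∀ r ∈ R, r.Sound) → ∀ b : Fm ℕ, b.Unsat →
      ∃ n₀, ∀ n ≥ n₀, ∀ π : List (Fm ℕ),
        Derives R ({F n} ∪ {A | (A.vars.ncard : ℝ) ≤ ((F n).size : ℝ) ^ (1 - ε) ∧
          ∀ x, A.eval x = true}) π → b ∈ π →
        (∀ A ∈ π, ∃ (B : Fm ℕ) (σ : ℕ → Fm ℕ), A = B.subst σ ∧ FrC.depth B ≤ d ∧
          ∀ v, ((σ v).vars.ncard : ℝ) ≤ ((F n).size : ℝ) ^ (1 - ε)) →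
        (2 : ℝ) ^ (((F n).size : ℝ) ^ c) ≤ ((subSet π).ncard : ℕ) := by
  -- the dimension
  obtain ⟨D, hD⟩ : ∃ D : ℕ, 4 ≤ ((D : ℝ) + 3) * ε := by
    obtain ⟨D, hD⟩ := exists_nat_ge (4 / ε)
    refine ⟨D, ?_⟩
    rw [div_le_iff₀ hε] at hD
    nlinarith
  have hD0 : (0 : ℝ) ≤ D := Nat.cast_nonneg D
  set K : ℝ := 2 ^ (2 * (D + 3)) * (4 * (D + 3) + 1) * 2 with hK
  have hK1 : 1 ≤ K := by
    rw [hK]
    have h1 : (1 : ℝ) ≤ 2 ^ (2 * (D + 3)) := one_le_pow₀ (by norm_num)
    have h2 : (1 : ℝ) ≤ 4 * (D + 3) + 1 := by linarith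
    nlinarith [mul_le_mul h1 h2 zero_le_one (zero_le_one.trans h1)]
  have hsize : ∀ n : ℕ, ((FrS.TsN D (n + 2)).size : ℝ) ≤ K * ((n + 2 : ℕ) : ℝ) ^ (D + 3) := by
    intro n
    rw [FrS.TsN_size]
    have h := FrS.Ts_size (D := D) (N := n + 2) (by omega)
    have h' : ((FrS.Ts D (n + 2)).size : ℝ) ≤
        (((n + 2) ^ (D + 3) * 2 ^ (2 * (D + 3)) * (4 * (D + 3) + 1) * 2 : ℕ) : ℝ) := by
      exact_mod_cast h
    refine h'.trans (le_of_eq ?_)
    rw [hK]
    push_cast
    ring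
  refine ⟨2 * (D + 3), fun n => FrS.TsN D (n + 2), fun n => ⟨FrS.TsN_unsat D (by omega),
    FrS.TsN_cnf D (by omega), ?_⟩, fun d => ?_⟩
  · rw [FrS.TsN_size]
    refine le_trans ?_ (FrS.le_Ts_size (by omega))
    calc n ≤ n + 2 := by omega
      _ = (n + 2) ^ 1 := (pow_one _).symm
      _ ≤ (n + 2) ^ (D + 3) := Nat.pow_le_pow_right (by omega) (by omega)
  · obtain ⟨c, hc, hmain⟩ := main_grid D d 1 one_pos
    set c' : ℝ := c / (2 * (D + 3)) with hc'
    have hc'0 : 0 < c' := by positivity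
    refine ⟨c', hc'0, fun R hR b hb => ?_⟩
    obtain ⟨N₀, hN₀⟩ := hmain R hR b hb
    obtain ⟨N₁, hN₁⟩ := FrS.eventually_const_le (K ^ (1 : ℝ)) 1 one_pos
    obtain ⟨N₂, hN₂⟩ := FrS.eventually_const_le (K ^ c') (c / 2) (by positivity)
    refine ⟨N₀ + N₁ + N₂, fun n hn π hπ hbπ hs => ?_⟩
    set N : ℕ := n + 2 with hN
    have hNpos : (0 : ℝ) < (N : ℝ) := by rw [hN]; positivity
    have hN1 : (1 : ℝ) ≤ (N : ℝ) := by
      rw [hN]; push_cast; linarith [(Nat.cast_nonneg n : (0:ℝ) ≤ n)]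
    have hF := hsize n
    have hF1 : (1 : ℝ) ≤ ((FrS.TsN D N).size : ℝ) := by
      have h1 := FrS.le_Ts_size (D := D) (N := N) (by omega)
      have h2 : 1 ≤ N ^ (D + 3) := Nat.one_le_pow _ _ (by omega)
      rw [FrS.TsN_size]
      exact_mod_cast h2.trans h1
    have key : ∀ a : ℝ, 0 ≤ a →
        ((FrS.TsN D N).size : ℝ) ^ a ≤ K ^ a * (N : ℝ) ^ ((D + 3) * a) := by
      intro a ha
      calc ((FrS.TsN D N).size : ℝ) ^ a ≤ (K * ((N : ℕ) : ℝ) ^ (D + 3)) ^ a := by
            apply Real.rpow_le_rpow (by linarith) _ ha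
            exact hF
        _ = K ^ a * (N : ℝ) ^ ((D + 3) * a) := by
            rw [Real.mul_rpow (by linarith) (by positivity), ← Real.rpow_natCast,
              ← Real.rpow_mul hNpos.le]
            push_cast
            rfl
    have hbound : ((FrS.TsN D N).size : ℝ) ^ (1 - ε) ≤ (N : ℝ) ^ ((D : ℝ) + 2 - 1) := by
      by_cases h2ε : 0 ≤ 1 - ε
      · calc ((FrS.TsN D N).size : ℝ) ^ (1 - ε) ≤ K ^ (1 - ε) * (N : ℝ) ^ ((D + 3) * (1 - ε)) :=
              key _ h2ε
          _ ≤ (N : ℝ) ^ (1 : ℝ) * (N : ℝ) ^ ((D : ℝ) + 2 - 2) := by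
              have h1 : K ^ (1 - ε) ≤ (N : ℝ) ^ (1 : ℝ) :=
                (Real.rpow_le_rpow_of_exponent_le hK1 (by linarith)).trans (hN₁ N (by omega))
              have h2 : (N : ℝ) ^ (((D : ℝ) + 3) * (1 - ε)) ≤ (N : ℝ) ^ ((D : ℝ) + 2 - 2) := by
                apply Real.rpow_le_rpow_of_exponent_le hN1
                nlinarith
              gcongr
          _ = (N : ℝ) ^ ((D : ℝ) + 2 - 1) := by
              rw [← Real.rpow_add hNpos]
              congr 1
              ring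
      · push Not at h2ε
        calc ((FrS.TsN D N).size : ℝ) ^ (1 - ε) ≤ 1 :=
              Real.rpow_le_one_of_one_le_of_nonpos hF1 h2ε.le
          _ ≤ (N : ℝ) ^ ((D : ℝ) + 2 - 1) := by
              apply Real.one_le_rpow hN1
              linarith
    have hder : Derives R ({FrS.TsN D N} ∪ {A | (A.vars.ncard : ℝ) ≤
        (N : ℝ) ^ ((D : ℝ) + 2 - 1) ∧ ∀ x, A.eval x = true}) π := by
      intro i hi
      rcases hπ i hi with (h | ⟨h1, h2⟩) | h
      · exact Or.inl (Or.inl h)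
      · exact Or.inl (Or.inr ⟨h1.trans hbound, h2⟩)
      · exact Or.inr h
    have hlen := hN₀ N (by omega) π hder hbπ (fun A hA => by
      obtain ⟨B, σ, h1, h2, h3⟩ := hs A hA
      exact ⟨B, σ, h1, h2, fun v => (h3 v).trans hbound⟩)
    refine le_trans ?_ hlen
    apply Real.rpow_le_rpow_of_exponent_le (by norm_num)
    calc ((FrS.TsN D N).size : ℝ) ^ c' ≤ K ^ c' * (N : ℝ) ^ ((D + 3) * c') := key c' hc'0.le
      _ ≤ (N : ℝ) ^ (c / 2) * (N : ℝ) ^ (c / 2) := by
          have h1 := hN₂ N (by omega)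
          have h2 : ((D : ℝ) + 3) * c' = c / 2 := by
            rw [hc']
            field_simp
          rw [h2]
          gcongr
      _ = (N : ℝ) ^ c := by
          rw [← Real.rpow_add hNpos]
          congr 1
          ring

end FrG
end
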